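import Mathlib

/-!
# Averages with rationally almost periodic weights, deterministic part
-/

set_option autoImplicit false

namespace Pool.Agent.X159.PE

open Filter Topology Finset

/-- averages over `0 ≤ n < N` -/
noncomputable def avgR (v : ℕ → ℝ) (N : ℕ) : ℝ := (N : ℝ)⁻¹ * ∑ n ∈ range N, v n

/-- averages over `1 ≤ n ≤ N` -/
noncomputable def avgI (v : ℕ → ℝ) (N : ℕ) : ℝ := (N : ℝ)⁻¹ * ∑ n ∈ Icc 1 N, v n

/-- convergence -/
def Cv (s : ℕ → ℝ) : Prop := ∃ L : ℝ, Tendsto s atTop (𝓝 L)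

theorem Cv.of_approx {s : ℕ → ℝ}
    (h : ∀ η : ℝ, 0 < η → ∃ G : ℕ → ℝ, Cv G ∧ ∀ᶠ N in atTop, |s N - G N| ≤ η) : Cv s := by
  apply cauchySeq_tendsto_of_complete
  rw [Metric.cauchySeq_iff']
  intro ε hε
  obtain ⟨G, ⟨L, hL⟩, hG⟩ := h (ε / 4) (by linarith)
  have h1 : ∀ᶠ N in atTop, |G N - L| < ε / 8 := by
    have := Metric.tendsto_nhds.1 hL (ε / 8) (by linarith)
    simpa [Real.dist_eq] using this
  obtain ⟨N0, hN0⟩ := eventually_atTop.1 (hG.and h1)
  refine ⟨N0, fun n hn => ?_⟩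
  obtain ⟨a1, a2⟩ := hN0 n hn
  obtain ⟨b1, b2⟩ := hN0 N0 le_rfl
  rw [Real.dist_eq, abs_lt]
  have c1 := abs_le.1 a1
  have c2 := abs_lt.1 a2
  have c3 := abs_le.1 b1
  have c4 := abs_lt.1 b2
  constructor <;> linarith

theorem sum_Icc_eq (v : ℕ → ℝ) (N : ℕ) :
    ∑ n ∈ Icc 1 N, v n = ∑ n ∈ range (N + 1), v n - v 0 := by
  induction N with
  | zero => simp
  | succ N ih =>
    rw [Finset.sum_Icc_succ_top (by omega), ih, Finset.sum_range_succ _ (N + 1)]
    ring

theorem Cv_avg_iff (v : ℕ → ℝ) : Cv (avgI v) ↔ Cv (avgR v) := by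
  have t0 : Tendsto (fun n : ℕ => ((n : ℝ) + 1)⁻¹) atTop (𝓝 0) :=
    tendsto_inv_atTop_zero.comp (tendsto_atTop_add_const_right _ _ tendsto_natCast_atTop_atTop)
  constructor
  · rintro ⟨L, hL⟩
    refine ⟨L, (tendsto_add_atTop_iff_nat 1).1 ?_⟩
    have e : ∀ N : ℕ, avgR v (N + 1) =
        ((N : ℝ) / ((N : ℝ) + 1)) * avgI v N + v 0 * ((N : ℝ) + 1)⁻¹ := by
      intro N
      unfold avgR avgI
      rw [sum_Icc_eq]
      push_cast
      rcases Nat.eq_zero_or_pos N with h | h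
      · subst h; simp
      · have : (N : ℝ) ≠ 0 := by exact_mod_cast h.ne'
        have h2 : (N : ℝ) + 1 ≠ 0 := by positivity
        field_simp
        ring
    have h1 := ((tendsto_natCast_div_add_atTop (1 : ℝ)).mul hL).add (t0.const_mul (v 0))
    rw [one_mul, mul_zero, add_zero] at h1
    exact h1.congr fun N => (e N).symm
  · rintro ⟨L, hL⟩
    have hL' := (tendsto_add_atTop_iff_nat 1).2 hL
    refine ⟨L, ?_⟩
    have t1 : Tendsto (fun n : ℕ => (n : ℝ)⁻¹) atTop (𝓝 0) :=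
      tendsto_inv_atTop_zero.comp tendsto_natCast_atTop_atTop
    have e : ∀ N : ℕ, 1 ≤ N → avgI v N =
        (1 + (N : ℝ)⁻¹) * avgR v (N + 1) - v 0 * (N : ℝ)⁻¹ := by
      intro N h
      unfold avgR avgI
      rw [sum_Icc_eq]
      push_cast
      have : (N : ℝ) ≠ 0 := by exact_mod_cast (by omega : N ≠ 0)
      have h2 : (N : ℝ) + 1 ≠ 0 := by positivity
      field_simp
    have h1 := (((t1.const_add 1).mul hL')).sub (t1.const_mul (v 0))
    rw [add_zero, one_mul, mul_zero, sub_zero] at h1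
    refine h1.congr' ?_
    filter_upwards [eventually_ge_atTop 1] with N hN
    exact (e N hN).symm

theorem block (v : ℕ → ℝ) (q M : ℕ) :
    ∑ n ∈ range (q * M), v n = ∑ m ∈ range M, ∑ r ∈ range q, v (q * m + r) := by
  induction M with
  | zero => simp
  | succ M ih =>
    rw [Finset.sum_range_succ, ← ih, Nat.mul_succ, Finset.sum_range_add]

theorem extend {v : ℕ → ℝ} {B : ℝ} (hB : ∀ n, |v n| ≤ B) {q : ℕ} (hq : 0 < q)
    (h : Cv fun M => avgR v (q * M)) : Cv (avgR v) := by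
  obtain ⟨L, hL⟩ := h
  refine ⟨L, ?_⟩
  rw [Metric.tendsto_nhds]
  intro ε hε
  have hB0 : 0 ≤ B := (abs_nonneg _).trans (hB 0)
  have h1 : ∀ᶠ M in atTop, |avgR v (q * M) - L| < ε / 2 := by
    have := Metric.tendsto_nhds.1 hL (ε / 2) (by linarith)
    simpa [Real.dist_eq] using this
  have h2 : ∀ᶠ N : ℕ in atTop, |avgR v (q * (N / q)) - L| < ε / 2 :=
    (Nat.tendsto_div_const_atTop hq.ne').eventually h1
  have h3 : ∀ᶠ N : ℕ in atTop, q * (B + |L|) < ε / 2 * N := by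
    have ht : Tendsto (fun N : ℕ => ε / 2 * (N : ℝ)) atTop atTop :=
      Tendsto.const_mul_atTop (by linarith) tendsto_natCast_atTop_atTop
    exact ht.eventually_gt_atTop _
  filter_upwards [h2, h3, eventually_ge_atTop 1] with N a1 a2 a3
  have hN : (0 : ℝ) < N := by exact_mod_cast a3
  obtain ⟨M, hM⟩ : ∃ M, M = N / q := ⟨_, rfl⟩
  rw [← hM] at a1
  have hle : q * M ≤ N := by rw [hM]; exact Nat.mul_div_le N q
  have hlt : N < q * M + q := by
    rw [hM]
    have := Nat.lt_mul_div_succ N hq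
    rwa [Nat.mul_succ] at this
  obtain ⟨s, hs⟩ := Nat.exists_eq_add_of_le hle
  have hsq : s < q := by omega
  have e1 : ∑ n ∈ range N, v n = ∑ n ∈ range (q * M), v n + ∑ n ∈ range s, v (q * M + n) := by
    rw [hs, Finset.sum_range_add]
  have e2 : |∑ n ∈ range s, v (q * M + n)| ≤ q * B := by
    calc |∑ n ∈ range s, v (q * M + n)| ≤ ∑ n ∈ range s, |v (q * M + n)| :=
          Finset.abs_sum_le_sum_abs _ _
      _ ≤ ∑ _n ∈ range s, B := Finset.sum_le_sum fun n _ => hB _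
      _ = s * B := by rw [Finset.sum_const, card_range, nsmul_eq_mul]
      _ ≤ q * B := by
          apply mul_le_mul_of_nonneg_right _ hB0
          exact_mod_cast hsq.le
  have e3 : |∑ n ∈ range (q * M), v n - (q * M : ℕ) * L| ≤ ε / 2 * N := by
    rcases Nat.eq_zero_or_pos (q * M) with h0 | h0
    · rw [h0]
      simp only [range_zero, sum_empty, Nat.cast_zero, zero_mul, sub_zero, abs_zero]
      positivity
    · have hp : (0 : ℝ) < (q * M : ℕ) := by exact_mod_cast h0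
      have : ∑ n ∈ range (q * M), v n - (q * M : ℕ) * L =
          (q * M : ℕ) * (avgR v (q * M) - L) := by
        unfold avgR
        field_simp
      rw [this, abs_mul, abs_of_pos hp]
      have hpN : ((q * M : ℕ) : ℝ) ≤ N := by exact_mod_cast hle
      calc ((q * M : ℕ) : ℝ) * |avgR v (q * M) - L| ≤ N * (ε / 2) :=
            mul_le_mul hpN a1.le (abs_nonneg _) hN.le
        _ = ε / 2 * N := by ring
  have e4 : |∑ n ∈ range N, v n - N * L| < ε * N := by
    have e5 : ∑ n ∈ range N, v n - N * L =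
        (∑ n ∈ range (q * M), v n - (q * M : ℕ) * L) + ∑ n ∈ range s, v (q * M + n)
          - (s : ℝ) * L := by
      rw [e1]
      have : (N : ℝ) = (q * M : ℕ) + s := by exact_mod_cast hs
      rw [this]
      ring
    have e6 : |(s : ℝ) * L| ≤ q * |L| := by
      rw [abs_mul, abs_of_nonneg (by positivity : (0 : ℝ) ≤ s)]
      apply mul_le_mul_of_nonneg_right _ (abs_nonneg _)
      exact_mod_cast hsq.le
    rw [e5]
    have c1 := abs_le.1 e2
    have c2 := abs_le.1 e3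
    have c3 := abs_le.1 e6
    rw [abs_lt]
    constructor <;> nlinarith
  rw [Real.dist_eq]
  have e7 : avgR v N - L = (∑ n ∈ range N, v n - N * L) / N := by
    unfold avgR
    field_simp
  rw [e7, abs_div, abs_of_pos hN, div_lt_iff₀ hN]
  exact e4

/-- rationally almost periodic weights: limits of periodic sequences in the mean -/
def RAP (w : ℕ → ℝ) : Prop :=
  ∀ ε : ℝ, 0 < ε → ∃ q : ℕ, 0 < q ∧ ∃ p : ℕ → ℝ, (∀ n, p (n + q) = p n) ∧
    ∀ᶠ N : ℕ in atTop, ∑ n ∈ Icc 1 N, |w n - p n| ≤ ε * N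

/-- the mean of `|w|` is zero -/
def Null (w : ℕ → ℝ) : Prop :=
  Tendsto (fun N : ℕ => (N : ℝ)⁻¹ * ∑ n ∈ Icc 1 N, |w n|) atTop (𝓝 0)

theorem per_mul {p : ℕ → ℝ} {q : ℕ} (h : ∀ n, p (n + q) = p n) (m r : ℕ) :
    p (q * m + r) = p r := by
  induction m with
  | zero => simp
  | succ m ih =>
    rw [← ih, ← h (q * m + r)]
    congr 1
    ring

theorem per_bdd {p : ℕ → ℝ} {q : ℕ} (hq : 0 < q) (h : ∀ n, p (n + q) = p n) (n : ℕ) :
    |p n| ≤ ∑ r ∈ range q, |p r| := by
  have e : p n = p (n % q) := by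
    conv_lhs => rw [← Nat.div_add_mod n q]
    exact per_mul h _ _
  rw [e]
  exact Finset.single_le_sum (f := fun r => |p r|) (fun r _ => abs_nonneg _)
    (mem_range.2 (Nat.mod_lt _ hq))

theorem avgI_diff {a b u : ℕ → ℝ} {B ε : ℝ} (hB0 : 0 ≤ B) (hu : ∀ n, |u n| ≤ B) {N : ℕ} (hN : 1 ≤ N)
    (h : ∑ n ∈ Icc 1 N, |a n - b n| ≤ ε * N) :
    |avgI (fun n => a n * u n) N - avgI (fun n => b n * u n) N| ≤ ε * B := by
  have hN' : (0 : ℝ) < N := by exact_mod_cast hN
  have e : avgI (fun n => a n * u n) N - avgI (fun n => b n * u n) N =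
      (N : ℝ)⁻¹ * ∑ n ∈ Icc 1 N, (a n - b n) * u n := by
    unfold avgI
    rw [← mul_sub, ← Finset.sum_sub_distrib]
    congr 1
    exact Finset.sum_congr rfl fun n _ => by ring
  rw [e, abs_mul, abs_of_pos (inv_pos.2 hN')]
  calc (N : ℝ)⁻¹ * |∑ n ∈ Icc 1 N, (a n - b n) * u n|
      ≤ (N : ℝ)⁻¹ * ∑ n ∈ Icc 1 N, |a n - b n| * B := by
        apply mul_le_mul_of_nonneg_left _ (inv_pos.2 hN').le
        refine (Finset.abs_sum_le_sum_abs _ _).trans (Finset.sum_le_sum fun n _ => ?_)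
        rw [abs_mul]
        exact mul_le_mul_of_nonneg_left (hu n) (abs_nonneg _)
    _ = (N : ℝ)⁻¹ * ((∑ n ∈ Icc 1 N, |a n - b n|) * B) := by rw [Finset.sum_mul]
    _ ≤ (N : ℝ)⁻¹ * ((ε * N) * B) := by
        apply mul_le_mul_of_nonneg_left _ (inv_pos.2 hN').le
        exact mul_le_mul_of_nonneg_right h hB0
    _ = ε * B := by field_simp

/-- forward direction -/
theorem forward {w u : ℕ → ℝ} {B : ℝ} (hw : RAP w) (hu : ∀ n, |u n| ≤ B)
    (h : ∀ q : ℕ, 0 < q → ∀ r < q, Cv (avgI fun m => u (q * m + r))) :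
    Cv (avgI fun n => w n * u n) := by
  have hB0 : 0 ≤ B := (abs_nonneg _).trans (hu 0)
  refine Cv.of_approx fun η hη => ?_
  obtain ⟨q, hq, p, hp, hw'⟩ := hw (η / (B + 1)) (by positivity)
  refine ⟨avgI fun n => p n * u n, ?_, ?_⟩
  · rw [Cv_avg_iff]
    refine extend (B := (∑ r ∈ range q, |p r|) * B) (fun n => ?_) hq ?_
    · rw [abs_mul]
      exact mul_le_mul (per_bdd hq hp n) (hu n) (abs_nonneg _)
        (Finset.sum_nonneg fun _ _ => abs_nonneg _)
    · have h' : ∀ r : ℕ, r < q → Cv (avgR fun m => u (q * m + r)) :=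
        fun r hr => (Cv_avg_iff _).1 (h q hq r hr)
      choose! L hL using h'
      refine ⟨∑ r ∈ range q, (p r / q) * L r, ?_⟩
      have h1 : Tendsto (fun M => ∑ r ∈ range q, (p r / q) * avgR (fun m => u (q * m + r)) M)
          atTop (𝓝 (∑ r ∈ range q, (p r / q) * L r)) :=
        tendsto_finsetSum _ fun r hr => (hL r (mem_range.1 hr)).const_mul _
      refine h1.congr fun M => ?_
      unfold avgR
      rw [block, Finset.sum_comm, Finset.mul_sum]
      refine Finset.sum_congr rfl fun r _ => ?_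
      have : ∑ m ∈ range M, p (q * m + r) * u (q * m + r) =
          p r * ∑ m ∈ range M, u (q * m + r) := by
        rw [Finset.mul_sum]
        exact Finset.sum_congr rfl fun m _ => by rw [per_mul hp]
      rw [this]
      push_cast
      rw [mul_inv]
      ring
  · filter_upwards [hw', eventually_ge_atTop 1] with N a1 a2
    refine (avgI_diff hB0 hu a2 a1).trans ?_
    rw [div_mul_eq_mul_div, div_le_iff₀ (by positivity)]
    nlinarith

/-- the case of null weights -/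
theorem null_case {w u : ℕ → ℝ} {B : ℝ} (hw : Null w) (hu : ∀ n, |u n| ≤ B) :
    Cv (avgI fun n => w n * u n) := by
  have hB0 : 0 ≤ B := (abs_nonneg _).trans (hu 0)
  refine ⟨0, ?_⟩
  have h1 := hw.mul_const B
  rw [zero_mul] at h1
  refine squeeze_zero_norm (fun N => ?_) h1
  rw [Real.norm_eq_abs]
  unfold avgI
  rw [abs_mul, abs_of_nonneg (by positivity : (0 : ℝ) ≤ (N : ℝ)⁻¹), mul_assoc]
  apply mul_le_mul_of_nonneg_left _ (by positivity)
  rw [Finset.sum_mul]
  refine (Finset.abs_sum_le_sum_abs _ _).trans (Finset.sum_le_sum fun n _ => ?_)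
  rw [abs_mul]
  exact mul_le_mul_of_nonneg_left (hu n) (abs_nonneg _)

/-- if `w` is not null, periodic approximations have means bounded below -/
theorem mean_lower {w : ℕ → ℝ} (hn : ¬ Null w) : ∃ δ : ℝ, 0 < δ ∧ ∀ ε : ℝ, ε ≤ δ →
    ∀ q : ℕ, 0 < q → ∀ p : ℕ → ℝ, (∀ n, p (n + q) = p n) →
      (∀ᶠ N : ℕ in atTop, ∑ n ∈ Icc 1 N, |w n - p n| ≤ ε * N) →
      δ * q ≤ ∑ r ∈ range q, |p r| := by
  have h1 : ∃ δ : ℝ, 0 < δ ∧ ∃ᶠ N : ℕ in atTop, 3 * δ * N ≤ ∑ n ∈ Icc 1 N, |w n| := by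
    by_contra hc
    push Not at hc
    apply hn
    rw [Null, Metric.tendsto_nhds]
    intro ε hε
    have h2 := hc (ε / 3) (by linarith)
    filter_upwards [h2, eventually_ge_atTop 1] with N a1 a2
    have hN : (0 : ℝ) < N := by exact_mod_cast a2
    rw [Real.dist_eq, sub_zero, abs_of_nonneg (by positivity)]
    rw [inv_mul_lt_iff₀ hN]
    linarith
  obtain ⟨δ, hδ, hf⟩ := h1
  refine ⟨δ, hδ, fun ε hε q hq p hp he => ?_⟩
  obtain ⟨S, hS⟩ : ∃ S, S = ∑ r ∈ range q, |p r| := ⟨_, rfl⟩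
  have hS0 : 0 ≤ S := by rw [hS]; exact Finset.sum_nonneg fun _ _ => abs_nonneg _
  rw [← hS]
  have hq' : (0 : ℝ) < q := by exact_mod_cast hq
  -- sums of a periodic sequence
  have hper : ∀ N : ℕ, ∑ n ∈ Icc 1 N, |p n| ≤ (N / q + 2) * S := by
    intro N
    have e1 : ∑ n ∈ Icc 1 N, |p n| ≤ ∑ n ∈ range (q * (N / q + 1 + 1)), |p n| := by
      refine Finset.sum_le_sum_of_subset_of_nonneg (fun n hn' => ?_) fun _ _ _ => abs_nonneg _
      rw [mem_Icc] at hn'
      rw [mem_range]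
      have := Nat.lt_mul_div_succ N hq
      calc n ≤ N := hn'.2
        _ < q * (N / q + 1) := this
        _ ≤ q * (N / q + 1 + 1) := Nat.mul_le_mul_left _ (by omega)
    have e2 : ∑ n ∈ range (q * (N / q + 1 + 1)), |p n| = ((N / q + 1 + 1 : ℕ) : ℝ) * S := by
      rw [block (fun n => |p n|)]
      rw [Finset.sum_congr rfl fun m _ => Finset.sum_congr rfl fun r _ => by rw [per_mul hp]]
      rw [Finset.sum_const, card_range, nsmul_eq_mul, hS]
    rw [e2] at e1
    refine e1.trans (mul_le_mul_of_nonneg_right ?_ hS0)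
    push_cast
    have := @Nat.cast_div_le ℝ _ _ _ N q
    linarith
  by_contra hlt
  push Not at hlt
  have hev : ∀ᶠ N : ℕ in atTop, 2 * S < δ * N := by
    have ht : Tendsto (fun N : ℕ => δ * (N : ℝ)) atTop atTop :=
      Tendsto.const_mul_atTop hδ tendsto_natCast_atTop_atTop
    exact ht.eventually_gt_atTop _
  obtain ⟨N, a1, a2, a3, a4⟩ := (hf.and_eventually (he.and (hev.and (eventually_ge_atTop 1)))).exists
  have hN : (0 : ℝ) < N := by exact_mod_cast a4
  have b1 : ∑ n ∈ Icc 1 N, |w n| ≤ ∑ n ∈ Icc 1 N, |w n - p n| + ∑ n ∈ Icc 1 N, |p n| := by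
    rw [← Finset.sum_add_distrib]
    refine Finset.sum_le_sum fun n _ => ?_
    calc |w n| = |(w n - p n) + p n| := by rw [sub_add_cancel]
      _ ≤ _ := abs_add_le _ _
  have b2 := hper N
  have b3 : (N / q + 2) * S ≤ N * (S / q) + 2 * S := by
    rw [add_mul]
    apply le_of_eq
    ring
  have b4 : S / q < δ := by
    rw [div_lt_iff₀ hq']
    exact hlt
  have b5 : (N : ℝ) * (S / q) ≤ N * δ := mul_le_mul_of_nonneg_left b4.le hN.le
  have b6 : ε * N ≤ δ * N := mul_le_mul_of_nonneg_right hε hN.le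
  linarith

/-- `w` unfolds: finite combinations of the sequences `n ↦ w (q n + r)` approximate the constant `1`
in the mean -/
def Unfolds (w : ℕ → ℝ) : Prop :=
  ∀ ε : ℝ, 0 < ε → ∃ q : ℕ, 0 < q ∧ ∃ R : ℕ, ∃ κ : ℕ → ℝ,
    ∀ᶠ N : ℕ in atTop, ∑ n ∈ Icc 1 N, |∑ r ∈ range R, κ r * w (q * n + r) - 1| ≤ ε * N

/-- the means of `w` over intervals of length `R` tend to `c` in the mean, `R → ∞` -/
def ShortMeans (w : ℕ → ℝ) (c : ℝ) : Prop :=
  ∀ ε : ℝ, 0 < ε → ∃ R : ℕ, 0 < R ∧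
    ∀ᶠ N : ℕ in atTop, ∑ n ∈ Icc 1 N, |(R : ℝ)⁻¹ * ∑ r ∈ range R, w (n + r) - c| ≤ ε * N

theorem ShortMeans.unfolds {w : ℕ → ℝ} {c : ℝ} (hc : c ≠ 0) (h : ShortMeans w c) : Unfolds w := by
  intro ε hε
  have hc' : 0 < |c| := abs_pos.2 hc
  obtain ⟨R, hR, hN⟩ := h (ε * |c|) (by positivity)
  refine ⟨1, one_pos, R, fun _ => (R : ℝ)⁻¹ * c⁻¹, ?_⟩
  filter_upwards [hN] with N hN
  have e : ∀ n, |∑ r ∈ range R, (R : ℝ)⁻¹ * c⁻¹ * w (1 * n + r) - 1| =
      |c|⁻¹ * |(R : ℝ)⁻¹ * ∑ r ∈ range R, w (n + r) - c| := by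
    intro n
    rw [← abs_inv, ← abs_mul, ← Finset.mul_sum]
    congr 1
    rw [one_mul, mul_sub, inv_mul_cancel₀ hc]
    ring
  rw [Finset.sum_congr rfl fun n _ => e n, ← Finset.mul_sum]
  rw [inv_mul_le_iff₀ hc']
  linarith

/-- backward direction -/
theorem backward {w u : ℕ → ℝ} {B : ℝ} (hw : Unfolds w) (hu : ∀ n, |u n| ≤ B)
    (h : ∀ q : ℕ, 0 < q → ∀ r : ℕ, Cv (avgI fun m => w (q * m + r) * u m)) :
    Cv (avgI u) := by
  have hB0 : 0 ≤ B := (abs_nonneg _).trans (hu 0)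
  refine Cv.of_approx fun η hη => ?_
  obtain ⟨q, hq, R, κ, hN⟩ := hw (η / (B + 1)) (by positivity)
  refine ⟨avgI fun m => (∑ r ∈ range R, κ r * w (q * m + r)) * u m, ?_, ?_⟩
  · choose L hL using h q hq
    refine ⟨∑ r ∈ range R, κ r * L r, ?_⟩
    have h1 : Tendsto (fun M => ∑ r ∈ range R, κ r * avgI (fun m => w (q * m + r) * u m) M)
        atTop (𝓝 (∑ r ∈ range R, κ r * L r)) :=
      tendsto_finsetSum _ fun r _ => (hL r).const_mul _
    refine h1.congr fun M => ?_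
    unfold avgI
    rw [Finset.sum_congr rfl fun m _ => Finset.sum_mul _ _ _, Finset.sum_comm, Finset.mul_sum]
    refine Finset.sum_congr rfl fun r _ => ?_
    rw [Finset.mul_sum, Finset.mul_sum, Finset.mul_sum]
    exact Finset.sum_congr rfl fun m _ => by ring
  · filter_upwards [hN, eventually_ge_atTop 1] with N a1 a2
    have h1 := avgI_diff (a := fun m => ∑ r ∈ range R, κ r * w (q * m + r)) (b := fun _ => 1)
      hB0 hu a2 a1
    have h2 : avgI (fun n => 1 * u n) N = avgI u N := by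
      unfold avgI
      congr 1
      exact Finset.sum_congr rfl fun n _ => one_mul _
    rw [h2, abs_sub_comm] at h1
    refine h1.trans ?_
    rw [div_mul_eq_mul_div, div_le_iff₀ (by positivity)]
    nlinarith

theorem sum_range_shift (v : ℕ → ℝ) (N : ℕ) :
    ∑ n ∈ range N, v (n + 1) = ∑ n ∈ Icc 1 N, v n := by
  induction N with
  | zero => simp
  | succ N ih => rw [Finset.sum_range_succ, ih, Finset.sum_Icc_succ_top (by omega)]

theorem Cv_shift {v : ℕ → ℝ} (h : Cv (avgR v)) (s : ℕ) : Cv (avgR fun n => v (n + s)) := by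
  induction s with
  | zero => exact h
  | succ s ih =>
    have h1 := (Cv_avg_iff (fun n => v (n + s))).2 ih
    obtain ⟨L, hL⟩ := h1
    refine ⟨L, hL.congr fun N => ?_⟩
    unfold avgI avgR
    congr 1
    rw [← sum_range_shift (fun n => v (n + s))]
    exact Finset.sum_congr rfl fun n _ => by congr 1; ring

/-- averages along one residue class -/
theorem class_Cv {w u : ℕ → ℝ} {q : ℕ} (hq : 0 < q) {r : ℕ} (hr : r < q)
    (h : Cv (avgI fun n => w n * (if n % q = r then u (n / q) else 0))) :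
    Cv (avgR fun m => w (q * m + r) * u m) := by
  obtain ⟨L, hL⟩ := (Cv_avg_iff _).1 h
  have hqM : Tendsto (fun M : ℕ => q * M) atTop atTop := tendsto_id.const_mul_atTop' hq
  have hq' : (q : ℝ) ≠ 0 := by exact_mod_cast hq.ne'
  refine ⟨q * L, ((hL.comp hqM).const_mul (q : ℝ)).congr fun M => ?_⟩
  show (q : ℝ) * avgR (fun n => w n * (if n % q = r then u (n / q) else 0)) (q * M) = _
  unfold avgR
  rw [block]
  have e : ∀ m ∈ range M, ∑ r' ∈ range q,
      w (q * m + r') * (if (q * m + r') % q = r then u ((q * m + r') / q) else 0) =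
      w (q * m + r) * u m := by
    intro m _
    rw [Finset.sum_eq_single_of_mem r (mem_range.2 hr)]
    · rw [Nat.mul_add_mod, Nat.mod_eq_of_lt hr, if_pos rfl,
        Nat.mul_add_div hq, Nat.div_eq_of_lt hr, add_zero]
    · intro r' hr' hne
      rw [Nat.mul_add_mod, Nat.mod_eq_of_lt (mem_range.1 hr'), if_neg hne, mul_zero]
  rw [Finset.sum_congr rfl e]
  push_cast
  rw [mul_inv, ← mul_assoc, ← mul_assoc, mul_inv_cancel₀ hq', one_mul]

/-- rationally almost periodic weights which are not null unfold -/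
theorem RAP.unfolds {w : ℕ → ℝ} (hw : RAP w) (hn : ¬ Null w) : Unfolds w := by
  obtain ⟨δ, hδ, hlow⟩ := mean_lower hn
  intro η hη
  obtain ⟨ε, hε, hε1, hε2⟩ : ∃ ε : ℝ, 0 < ε ∧ ε ≤ δ ∧ 2 * ε ≤ η * δ :=
    ⟨min δ (η * δ / 2), by positivity, min_le_left _ _, by
      have := min_le_right δ (η * δ / 2)
      linarith⟩
  obtain ⟨q, hq, p, hp, hwp⟩ := hw ε hε
  have hS := hlow ε hε1 q hq p hp hwp
  obtain ⟨S, hSd⟩ : ∃ S, S = ∑ r ∈ range q, |p r| := ⟨_, rfl⟩
  rw [← hSd] at hS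
  have hq' : (0 : ℝ) < q := by exact_mod_cast hq
  have hSp : 0 < S := lt_of_lt_of_le (by positivity) hS
  obtain ⟨κ, hκ⟩ : ∃ κ : ℕ → ℝ, κ = fun r => SignType.sign (p r) / S := ⟨_, rfl⟩
  have hκ1 : ∑ r ∈ range q, κ r * p r = 1 := by
    have : ∀ r, κ r * p r = |p r| / S := by
      intro r
      rw [hκ]
      show (SignType.sign (p r) : ℝ) / S * p r = |p r| / S
      rw [div_mul_eq_mul_div, sign_mul_self]
    rw [Finset.sum_congr rfl fun r _ => this r, ← Finset.sum_div, ← hSd, div_self hSp.ne']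
  have hκ2 : ∀ r, |κ r| ≤ 1 / S := by
    intro r
    rw [hκ]
    show |(SignType.sign (p r) : ℝ) / S| ≤ 1 / S
    rw [abs_div, abs_of_pos hSp]
    apply div_le_div_of_nonneg_right _ hSp.le
    rcases lt_trichotomy (p r) 0 with h0 | h0 | h0
    · rw [sign_neg h0]; simp
    · rw [h0]; simp
    · rw [sign_pos h0]; simp
  refine ⟨q, hq, q, κ, ?_⟩
  have hqM : Tendsto (fun M : ℕ => q * (M + 1)) atTop atTop :=
    (tendsto_add_atTop_nat 1).const_mul_atTop' hq
  filter_upwards [hqM.eventually hwp, eventually_ge_atTop 1] with M a1 a3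
  have hM : (1 : ℝ) ≤ M := by exact_mod_cast a3
  have b2 : ∀ m : ℕ, |∑ r ∈ range q, κ r * w (q * m + r) - 1| ≤
      (∑ r ∈ range q, |w (q * m + r) - p (q * m + r)|) * (1 / S) := by
    intro m
    have : ∑ r ∈ range q, κ r * w (q * m + r) - 1 =
        ∑ r ∈ range q, κ r * (w (q * m + r) - p (q * m + r)) := by
      rw [← hκ1, ← Finset.sum_sub_distrib]
      refine Finset.sum_congr rfl fun r _ => ?_
      rw [per_mul hp]
      ring
    rw [this, Finset.sum_mul]
    refine (Finset.abs_sum_le_sum_abs _ _).trans (Finset.sum_le_sum fun r _ => ?_)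
    rw [abs_mul, mul_comm]
    exact mul_le_mul_of_nonneg_left (hκ2 r) (abs_nonneg _)
  have b3 : ∑ m ∈ Icc 1 M, ∑ r ∈ range q, |w (q * m + r) - p (q * m + r)| ≤
      ∑ n ∈ Icc 1 (q * (M + 1)), |w n - p n| := by
    have e1 := block (fun n => |w n - p n|) q (M + 1)
    have e2 : ∑ m ∈ range (M + 1), ∑ r ∈ range q, |w (q * m + r) - p (q * m + r)| =
        ∑ m ∈ Icc 1 M, ∑ r ∈ range q, |w (q * m + r) - p (q * m + r)| +
          ∑ r ∈ range q, |w (q * 0 + r) - p (q * 0 + r)| := by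
      rw [sum_Icc_eq (fun m => ∑ r ∈ range q, |w (q * m + r) - p (q * m + r)|) M]
      ring
    have e3 := sum_Icc_eq (fun n => |w n - p n|) (q * (M + 1))
    have e4 : |w 0 - p 0| ≤ ∑ r ∈ range q, |w (q * 0 + r) - p (q * 0 + r)| := by
      have := Finset.single_le_sum (f := fun r => |w (q * 0 + r) - p (q * 0 + r)|)
        (fun r _ => abs_nonneg _) (mem_range.2 hq)
      simpa using this
    have e5 : ∑ n ∈ range (q * (M + 1)), |w n - p n| ≤
        ∑ n ∈ range (q * (M + 1) + 1), |w n - p n| :=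
      Finset.sum_le_sum_of_subset_of_nonneg
        (Finset.range_subset_range.2 (Nat.le_succ _)) fun _ _ _ => abs_nonneg _
    linarith
  push_cast at a1
  calc ∑ m ∈ Icc 1 M, |∑ r ∈ range q, κ r * w (q * m + r) - 1|
      ≤ ∑ m ∈ Icc 1 M, (∑ r ∈ range q, |w (q * m + r) - p (q * m + r)|) * (1 / S) :=
        Finset.sum_le_sum fun m _ => b2 m
    _ = (∑ m ∈ Icc 1 M, ∑ r ∈ range q, |w (q * m + r) - p (q * m + r)|) * (1 / S) := by
        rw [Finset.sum_mul]
    _ ≤ (ε * (q * (M + 1))) * (1 / S) :=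
        mul_le_mul_of_nonneg_right (b3.trans a1) (by positivity)
    _ ≤ (ε * (q * (2 * M))) * (1 / S) := by
        apply mul_le_mul_of_nonneg_right _ (by positivity)
        apply mul_le_mul_of_nonneg_left _ hε.le
        apply mul_le_mul_of_nonneg_left _ hq'.le
        linarith
    _ = (2 * ε) * (q / S) * M := by ring
    _ ≤ (η * δ) * (q / S) * M := by
        apply mul_le_mul_of_nonneg_right _ (by positivity)
        exact mul_le_mul_of_nonneg_right hε2 (by positivity)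
    _ = η * ((δ * q) / S) * M := by ring
    _ ≤ η * 1 * M := by
        apply mul_le_mul_of_nonneg_right _ (by positivity)
        apply mul_le_mul_of_nonneg_left _ hη.le
        rw [div_le_one hSp]
        exact hS
    _ = η * M := by ring

end Pool.Agent.X159.PE
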