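import Mathlib

/-!
# Averages over boxes with weights, deterministic part
-/

set_option autoImplicit false

namespace Pool.Agent.X159.PE

open Filter Topology Finset

variable {k : ℕ}

/-- the box `[0, M_1) × … × [0, M_k)` -/
def box (M : Fin k → ℕ) : Finset (Fin k → ℕ) := Fintype.piFinset fun j => range (M j)

/-- averages over boxes -/
noncomputable def avgB (v : (Fin k → ℕ) → ℝ) (M : Fin k → ℕ) : ℝ :=
  (∏ j, (M j : ℝ))⁻¹ * ∑ m ∈ box M, v m

/-- convergence when all sides tend to infinity -/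
def CvB (s : (Fin k → ℕ) → ℝ) : Prop := ∃ L : ℝ, Tendsto s atTop (𝓝 L)

theorem mem_box {M m : Fin k → ℕ} : m ∈ box M ↔ ∀ j, m j < M j := by
  simp [box, Fintype.mem_piFinset]

theorem card_box (M : Fin k → ℕ) : ((box M).card : ℝ) = ∏ j, (M j : ℝ) := by
  simp [box, Fintype.card_piFinset]

theorem CvB.of_approx {s : (Fin k → ℕ) → ℝ}
    (h : ∀ η : ℝ, 0 < η → ∃ G : (Fin k → ℕ) → ℝ, CvB G ∧ ∀ᶠ N in atTop, |s N - G N| ≤ η) :
    CvB s := by
  apply cauchySeq_tendsto_of_complete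
  rw [Metric.cauchySeq_iff']
  intro ε hε
  obtain ⟨G, ⟨L, hL⟩, hG⟩ := h (ε / 4) (by linarith)
  have h1 : ∀ᶠ N in atTop, |G N - L| < ε / 8 := by
    have := Metric.tendsto_nhds.1 hL (ε / 8) (by linarith)
    simpa [Real.dist_eq] using this
  obtain ⟨N0, hN0⟩ := eventually_atTop.1 (hG.and h1)
  refine ⟨N0, fun n hn => ?_⟩
  obtain ⟨a1, a2⟩ := hN0 n hn
  obtain ⟨b1, b2⟩ := hN0 N0 le_rfl
  rw [Real.dist_eq, abs_lt]
  have c1 := abs_le.1 a1
  have c2 := abs_lt.1 a2
  have c3 := abs_le.1 b1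
  have c4 := abs_lt.1 b2
  constructor <;> linarith

theorem sub_diff {v : (Fin k → ℕ) → ℝ} {B : ℝ} (hB : ∀ m, |v m| ≤ B)
    {S S' : Finset (Fin k → ℕ)} (h : S ⊆ S') :
    |∑ m ∈ S', v m - ∑ m ∈ S, v m| ≤ B * ((S'.card : ℝ) - S.card) := by
  rw [← Finset.sum_sdiff h, add_sub_cancel_right]
  calc |∑ m ∈ S' \ S, v m| ≤ ∑ m ∈ S' \ S, |v m| := Finset.abs_sum_le_sum_abs _ _
    _ ≤ ∑ _m ∈ S' \ S, B := Finset.sum_le_sum fun m _ => hB m
    _ = ((S' \ S).card : ℝ) * B := by rw [Finset.sum_const, nsmul_eq_mul]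
    _ = B * ((S'.card : ℝ) - S.card) := by
        rw [Finset.card_sdiff_of_subset h, Nat.cast_sub (Finset.card_le_card h)]
        ring

theorem tendsto_coord (j : Fin k) : Tendsto (fun M : Fin k → ℕ => M j) atTop atTop :=
  tendsto_atTop_atTop_of_monotone (fun _ _ h => h j) fun b => ⟨fun _ => b, le_rfl⟩

theorem ev_pos : ∀ᶠ M : Fin k → ℕ in atTop, ∀ j, 1 ≤ M j := by
  filter_upwards [eventually_ge_atTop (fun _ : Fin k => 1)] with M hM j
  exact hM j

theorem ratio_shift (r : Fin k → ℕ) :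
    Tendsto (fun M : Fin k → ℕ => (∏ j, ((M + r) j : ℝ)) / ∏ j, (M j : ℝ)) atTop (𝓝 1) := by
  have h1 : ∀ j : Fin k, Tendsto (fun M : Fin k → ℕ => 1 + (r j : ℝ) / (M j : ℝ)) atTop (𝓝 1) := by
    intro j
    have h2 : Tendsto (fun n : ℕ => (r j : ℝ) / (n : ℝ)) atTop (𝓝 0) :=
      tendsto_const_div_atTop_nhds_zero_nat _
    have h3 := (h2.comp (tendsto_coord j)).const_add 1
    rw [add_zero] at h3
    exact h3
  have h2 := tendsto_finsetProd (Finset.univ : Finset (Fin k)) fun j _ => h1 j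
  rw [Finset.prod_const_one] at h2
  refine h2.congr' ?_
  filter_upwards [ev_pos] with M hM
  rw [← Finset.prod_div_distrib]
  refine Finset.prod_congr rfl fun j _ => ?_
  have : (M j : ℝ) ≠ 0 := by
    have := hM j
    exact_mod_cast (by omega : M j ≠ 0)
  rw [Pi.add_apply]
  push_cast
  field_simp

theorem ratio_div {q : ℕ} (hq : 0 < q) :
    Tendsto (fun M : Fin k → ℕ => (∏ j, ((q * (M j / q) : ℕ) : ℝ)) / ∏ j, (M j : ℝ)) atTop
      (𝓝 1) := by
  have h0 : Tendsto (fun n : ℕ => ((q * (n / q) : ℕ) : ℝ) / (n : ℝ)) atTop (𝓝 1) := by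
    have h2 : Tendsto (fun n : ℕ => 1 - (q : ℝ) / (n : ℝ)) atTop (𝓝 1) := by
      have := (tendsto_const_div_atTop_nhds_zero_nat (q : ℝ)).const_sub 1
      rwa [sub_zero] at this
    refine tendsto_of_tendsto_of_tendsto_of_le_of_le' h2 tendsto_const_nhds ?_ ?_
    · filter_upwards [eventually_ge_atTop 1] with n hn
      have hn' : (0 : ℝ) < n := by exact_mod_cast hn
      rw [one_sub_div hn'.ne']
      apply div_le_div_of_nonneg_right _ hn'.le
      have h3 := Nat.lt_mul_div_succ n hq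
      rw [Nat.mul_succ] at h3
      have h4 : (n : ℝ) ≤ ((q * (n / q) : ℕ) : ℝ) + q := by exact_mod_cast h3.le
      linarith
    · filter_upwards [eventually_ge_atTop 1] with n hn
      have hn' : (0 : ℝ) < n := by exact_mod_cast hn
      rw [div_le_one hn']
      exact_mod_cast Nat.mul_div_le n q
  have h2 := tendsto_finsetProd (Finset.univ : Finset (Fin k)) fun j _ =>
    h0.comp (tendsto_coord j)
  rw [Finset.prod_const_one] at h2
  refine h2.congr fun M => ?_
  rw [← Finset.prod_div_distrib]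
  rfl

theorem CvB_shift {v : (Fin k → ℕ) → ℝ} {B : ℝ} (hB : ∀ m, |v m| ≤ B) (r : Fin k → ℕ)
    (h : CvB (avgB v)) : CvB (avgB fun m => v (m + r)) := by
  classical
  obtain ⟨L, hL⟩ := h
  have hT : Tendsto (fun M : Fin k → ℕ => M + r) atTop atTop :=
    tendsto_atTop_mono (fun M => (le_add_iff_nonneg_right M).2 (fun j => Nat.zero_le _)) tendsto_id
  have h1 := (ratio_shift r).mul (hL.comp hT)
  rw [one_mul] at h1
  have h2 : Tendsto (fun M : Fin k → ℕ => B * ((∏ j, ((M + r) j : ℝ)) / (∏ j, (M j : ℝ)) - 1))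
      atTop (𝓝 0) := by
    have := ((ratio_shift r).sub_const 1).const_mul B
    rwa [sub_self, mul_zero] at this
  have h3 : Tendsto (fun M : Fin k → ℕ => avgB (fun m => v (m + r)) M -
      (∏ j, ((M + r) j : ℝ)) / (∏ j, (M j : ℝ)) * (avgB v ∘ fun M => M + r) M) atTop (𝓝 0) := by
    refine squeeze_zero_norm' ?_ h2
    filter_upwards [ev_pos] with M hM
    have hP : 0 < ∏ j, (M j : ℝ) := Finset.prod_pos fun j _ => by
      have := hM j
      exact_mod_cast (by omega : 0 < M j)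
    have hP' : 0 < ∏ j, ((M + r) j : ℝ) := Finset.prod_pos fun j _ => by
      have := hM j
      have h5 : 0 < (M + r) j := by rw [Pi.add_apply]; omega
      exact_mod_cast h5
    have hinj : Set.InjOn (fun m : Fin k → ℕ => m + r) (box M : Set (Fin k → ℕ)) :=
      fun a _ b _ hab => add_right_cancel hab
    have e1 : ∑ m ∈ box M, v (m + r) = ∑ m ∈ (box M).image (fun m => m + r), v m :=
      (Finset.sum_image hinj).symm
    have hsub : (box M).image (fun m => m + r) ⊆ box (M + r) := by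
      intro m hm
      obtain ⟨m', hm', rfl⟩ := Finset.mem_image.1 hm
      rw [mem_box] at hm' ⊢
      intro j
      exact Nat.add_lt_add_right (hm' j) _
    have h5 := sub_diff hB hsub
    rw [Finset.card_image_of_injOn hinj, card_box, card_box] at h5
    have e2 : avgB (fun m => v (m + r)) M -
        (∏ j, ((M + r) j : ℝ)) / (∏ j, (M j : ℝ)) * (avgB v ∘ fun M => M + r) M =
        -((∏ j, (M j : ℝ))⁻¹ * (∑ m ∈ box (M + r), v m -
          ∑ m ∈ (box M).image (fun m => m + r), v m)) := by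
      rw [← e1]
      show (∏ j, (M j : ℝ))⁻¹ * ∑ m ∈ box M, v (m + r) -
        (∏ j, ((M + r) j : ℝ)) / (∏ j, (M j : ℝ)) *
          ((∏ j, ((M + r) j : ℝ))⁻¹ * ∑ m ∈ box (M + r), v m) = _
      field_simp
      ring
    rw [e2, norm_neg, Real.norm_eq_abs, abs_mul, abs_of_pos (inv_pos.2 hP),
      inv_mul_le_iff₀ hP]
    refine h5.trans (le_of_eq ?_)
    field_simp
  have h4 := h3.add h1
  rw [zero_add] at h4
  exact ⟨L, h4.congr fun M => by simp⟩

theorem CvB_extend {v : (Fin k → ℕ) → ℝ} {B : ℝ} (hB : ∀ m, |v m| ≤ B) {q : ℕ} (hq : 0 < q)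
    (h : CvB fun M : Fin k → ℕ => avgB v fun j => q * M j) : CvB (avgB v) := by
  classical
  obtain ⟨L, hL⟩ := h
  have hT : Tendsto (fun (M : Fin k → ℕ) (j : Fin k) => M j / q) atTop atTop := by
    refine tendsto_atTop_atTop_of_monotone (fun _ _ h j => Nat.div_le_div_right (h j)) fun b =>
      ⟨fun j => q * b j, fun j => ?_⟩
    show b j ≤ q * b j / q
    rw [Nat.mul_div_cancel_left _ hq]
  have h1 := (ratio_div (k := k) hq).mul (hL.comp hT)
  rw [one_mul] at h1
  have h2 : Tendsto (fun M : Fin k → ℕ =>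
      B * (1 - (∏ j, ((q * (M j / q) : ℕ) : ℝ)) / ∏ j, (M j : ℝ))) atTop (𝓝 0) := by
    have := ((ratio_div (k := k) hq).const_sub 1).const_mul B
    rwa [sub_self, mul_zero] at this
  have h3 : Tendsto (fun M : Fin k → ℕ => avgB v M -
      (∏ j, ((q * (M j / q) : ℕ) : ℝ)) / (∏ j, (M j : ℝ)) *
        avgB v (fun j => q * (M j / q))) atTop (𝓝 0) := by
    refine squeeze_zero_norm' ?_ h2
    filter_upwards [eventually_ge_atTop (fun _ : Fin k => q)] with M hM
    have hP : 0 < ∏ j, (M j : ℝ) := Finset.prod_pos fun j _ => by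
      exact_mod_cast lt_of_lt_of_le hq (hM j)
    have hP' : 0 < ∏ j, ((q * (M j / q) : ℕ) : ℝ) := Finset.prod_pos fun j _ => by
      have h5 : 0 < q * (M j / q) := Nat.mul_pos hq (Nat.div_pos (hM j) hq)
      exact_mod_cast h5
    have hsub : box (fun j => q * (M j / q)) ⊆ box M := by
      intro m hm
      rw [mem_box] at hm ⊢
      intro j
      exact (hm j).trans_le (Nat.mul_div_le _ _)
    have h5 := sub_diff hB hsub
    rw [card_box, card_box] at h5
    have e2 : avgB v M - (∏ j, ((q * (M j / q) : ℕ) : ℝ)) / (∏ j, (M j : ℝ)) *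
        avgB v (fun j => q * (M j / q)) =
        (∏ j, (M j : ℝ))⁻¹ * (∑ m ∈ box M, v m - ∑ m ∈ box (fun j => q * (M j / q)), v m) := by
      unfold avgB
      field_simp
    rw [e2, Real.norm_eq_abs, abs_mul, abs_of_pos (inv_pos.2 hP), inv_mul_le_iff₀ hP]
    refine h5.trans (le_of_eq ?_)
    field_simp
  have h4 := h3.add h1
  rw [zero_add] at h4
  refine ⟨L, h4.congr fun M => ?_⟩
  show avgB v M - _ * avgB v (fun j => q * (M j / q)) + _ * avgB v (fun j => q * (M j / q)) = _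
  ring

theorem block_box (v : (Fin k → ℕ) → ℝ) {q : ℕ} (hq : 0 < q) (M : Fin k → ℕ) :
    ∑ n ∈ box (fun j => q * M j), v n =
      ∑ m ∈ box M, ∑ r ∈ box (fun _ : Fin k => q), v (fun j => q * m j + r j) := by
  rw [← Finset.sum_product']
  symm
  refine Finset.sum_nbij' (fun z j => q * z.1 j + z.2 j)
    (fun n => (fun j => n j / q, fun j => n j % q)) ?_ ?_ ?_ ?_ ?_
  · intro z hz
    rw [Finset.mem_product, mem_box, mem_box] at hz
    rw [mem_box]
    intro j
    have h1 := hz.1 j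
    have h2 := hz.2 j
    calc q * z.1 j + z.2 j < q * z.1 j + q := Nat.add_lt_add_left h2 _
      _ = q * (z.1 j + 1) := by ring
      _ ≤ q * M j := Nat.mul_le_mul_left _ h1
  · intro n hn
    rw [mem_box] at hn
    rw [Finset.mem_product, mem_box, mem_box]
    exact ⟨fun j => Nat.div_lt_of_lt_mul (hn j), fun j => Nat.mod_lt _ hq⟩
  · intro z hz
    rw [Finset.mem_product, mem_box, mem_box] at hz
    refine Prod.ext (funext fun j => ?_) (funext fun j => ?_)
    · show (q * z.1 j + z.2 j) / q = z.1 j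
      rw [Nat.mul_add_div hq, Nat.div_eq_of_lt (hz.2 j), add_zero]
    · show (q * z.1 j + z.2 j) % q = z.2 j
      rw [Nat.mul_add_mod, Nat.mod_eq_of_lt (hz.2 j)]
  · intro n _
    funext j
    exact Nat.div_add_mod _ _
  · intro z _
    rfl

/-- `p (q m + r) = p r` for all `r` in the box of side `q` -/
def Per (q : ℕ) (p : (Fin k → ℕ) → ℝ) : Prop :=
  ∀ m r : Fin k → ℕ, p (fun j => q * m j + r j) = p r

/-- rationally almost periodic weights -/
def RAPBox (w : (Fin k → ℕ) → ℝ) : Prop :=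
  ∀ ε : ℝ, 0 < ε → ∃ q : ℕ, 0 < q ∧ ∃ p : (Fin k → ℕ) → ℝ, Per q p ∧
    ∀ᶠ M : Fin k → ℕ in atTop, ∑ m ∈ box M, |w m - p m| ≤ ε * ∏ j, (M j : ℝ)

theorem Per.bdd {q : ℕ} (hq : 0 < q) {p : (Fin k → ℕ) → ℝ} (hp : Per q p) (m : Fin k → ℕ) :
    |p m| ≤ ∑ r ∈ box (fun _ : Fin k => q), |p r| := by
  have e : p m = p (fun j => m j % q) := by
    rw [← hp (fun j => m j / q) (fun j => m j % q)]
    congr 1
    funext j
    exact (Nat.div_add_mod _ _).symm
  rw [e]
  exact Finset.single_le_sum (f := fun r => |p r|) (fun r _ => abs_nonneg _)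
    (mem_box.2 fun j => Nat.mod_lt _ hq)

theorem avgB_diff {a b u : (Fin k → ℕ) → ℝ} {B ε : ℝ} (hB0 : 0 ≤ B) (hu : ∀ n, |u n| ≤ B)
    {M : Fin k → ℕ} (hM : ∀ j, 1 ≤ M j)
    (h : ∑ n ∈ box M, |a n - b n| ≤ ε * ∏ j, (M j : ℝ)) :
    |avgB (fun n => a n * u n) M - avgB (fun n => b n * u n) M| ≤ ε * B := by
  have hP : 0 < ∏ j, (M j : ℝ) := Finset.prod_pos fun j _ => by
    have := hM j
    exact_mod_cast (by omega : 0 < M j)
  have e : avgB (fun n => a n * u n) M - avgB (fun n => b n * u n) M =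
      (∏ j, (M j : ℝ))⁻¹ * ∑ n ∈ box M, (a n - b n) * u n := by
    unfold avgB
    rw [← mul_sub, ← Finset.sum_sub_distrib]
    congr 1
    exact Finset.sum_congr rfl fun n _ => by ring
  rw [e, abs_mul, abs_of_pos (inv_pos.2 hP), inv_mul_le_iff₀ hP]
  calc |∑ n ∈ box M, (a n - b n) * u n| ≤ ∑ n ∈ box M, |a n - b n| * B := by
        refine (Finset.abs_sum_le_sum_abs _ _).trans (Finset.sum_le_sum fun n _ => ?_)
        rw [abs_mul]
        exact mul_le_mul_of_nonneg_left (hu n) (abs_nonneg _)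
    _ = (∑ n ∈ box M, |a n - b n|) * B := by rw [Finset.sum_mul]
    _ ≤ (ε * ∏ j, (M j : ℝ)) * B := mul_le_mul_of_nonneg_right h hB0
    _ = (∏ j, (M j : ℝ)) * (ε * B) := by ring

/-- forward direction -/
theorem forwardB {w u : (Fin k → ℕ) → ℝ} {B : ℝ} (hw : RAPBox w) (hu : ∀ n, |u n| ≤ B)
    (h : ∀ q : ℕ, 0 < q → ∀ r : Fin k → ℕ, CvB (avgB fun m => u (fun j => q * m j + r j))) :
    CvB (avgB fun n => w n * u n) := by
  have hB0 : 0 ≤ B := (abs_nonneg _).trans (hu 0)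
  refine CvB.of_approx fun η hη => ?_
  obtain ⟨q, hq, p, hp, hw'⟩ := hw (η / (B + 1)) (by positivity)
  refine ⟨avgB fun n => p n * u n, ?_, ?_⟩
  · refine CvB_extend (B := (∑ r ∈ box (fun _ : Fin k => q), |p r|) * B) (fun n => ?_) hq ?_
    · rw [abs_mul]
      exact mul_le_mul (hp.bdd hq n) (hu n) (abs_nonneg _)
        (Finset.sum_nonneg fun _ _ => abs_nonneg _)
    · choose L hL using h q hq
      refine ⟨∑ r ∈ box (fun _ : Fin k => q), (p r / (q : ℝ) ^ k) * L r, ?_⟩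
      have h1 : Tendsto (fun M => ∑ r ∈ box (fun _ : Fin k => q),
          (p r / (q : ℝ) ^ k) * avgB (fun m => u (fun j => q * m j + r j)) M)
          atTop (𝓝 (∑ r ∈ box (fun _ : Fin k => q), (p r / (q : ℝ) ^ k) * L r)) :=
        tendsto_finsetSum _ fun r _ => (hL r).const_mul _
      refine h1.congr fun M => ?_
      unfold avgB
      rw [block_box _ hq, Finset.sum_comm, Finset.mul_sum]
      refine Finset.sum_congr rfl fun r _ => ?_
      have e1 : ∑ m ∈ box M, p (fun j => q * m j + r j) * u (fun j => q * m j + r j) =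
          p r * ∑ m ∈ box M, u (fun j => q * m j + r j) := by
        rw [Finset.mul_sum]
        exact Finset.sum_congr rfl fun m _ => by rw [hp]
      have e2 : ∏ j : Fin k, (((q * M j : ℕ)) : ℝ) = (q : ℝ) ^ k * ∏ j, (M j : ℝ) := by
        push_cast
        rw [Finset.prod_mul_distrib, Finset.prod_const, Finset.card_univ, Fintype.card_fin]
      rw [e1, e2, mul_inv]
      ring
  · filter_upwards [hw', ev_pos] with N a1 a2
    refine (avgB_diff hB0 hu a2 a1).trans ?_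
    rw [div_mul_eq_mul_div, div_le_iff₀ (by positivity)]
    nlinarith

/-- finite combinations of translates of `w` approximate the constant `1` in the mean -/
def UnfoldsBox (w : (Fin k → ℕ) → ℝ) : Prop :=
  ∀ ε : ℝ, 0 < ε → ∃ (F : Finset (Fin k → ℕ)) (κ : (Fin k → ℕ) → ℝ),
    ∀ᶠ M : Fin k → ℕ in atTop,
      ∑ m ∈ box M, |∑ r ∈ F, κ r * w (m + r) - 1| ≤ ε * ∏ j, (M j : ℝ)

/-- backward direction -/
theorem backwardB {w u : (Fin k → ℕ) → ℝ} {B : ℝ} (hw : UnfoldsBox w) (hu : ∀ n, |u n| ≤ B)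
    (h : ∀ r : Fin k → ℕ, CvB (avgB fun m => w (m + r) * u m)) :
    CvB (avgB u) := by
  have hB0 : 0 ≤ B := (abs_nonneg _).trans (hu 0)
  refine CvB.of_approx fun η hη => ?_
  obtain ⟨F, κ, hN⟩ := hw (η / (B + 1)) (by positivity)
  refine ⟨avgB fun m => (∑ r ∈ F, κ r * w (m + r)) * u m, ?_, ?_⟩
  · choose L hL using h
    refine ⟨∑ r ∈ F, κ r * L r, ?_⟩
    have h1 : Tendsto (fun M => ∑ r ∈ F, κ r * avgB (fun m => w (m + r) * u m) M)
        atTop (𝓝 (∑ r ∈ F, κ r * L r)) :=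
      tendsto_finsetSum _ fun r _ => (hL r).const_mul _
    refine h1.congr fun M => ?_
    unfold avgB
    rw [Finset.sum_congr rfl fun m _ => Finset.sum_mul _ _ _, Finset.sum_comm, Finset.mul_sum]
    refine Finset.sum_congr rfl fun r _ => ?_
    rw [Finset.mul_sum, Finset.mul_sum, Finset.mul_sum]
    exact Finset.sum_congr rfl fun m _ => by ring
  · filter_upwards [hN, ev_pos] with N a1 a2
    have h1 := avgB_diff (a := fun m => ∑ r ∈ F, κ r * w (m + r)) (b := fun _ => 1)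
      hB0 hu a2 a1
    have h2 : avgB (fun n => 1 * u n) N = avgB u N := by
      unfold avgB
      congr 1
      exact Finset.sum_congr rfl fun n _ => one_mul _
    rw [h2, abs_sub_comm] at h1
    refine h1.trans ?_
    rw [div_mul_eq_mul_div, div_le_iff₀ (by positivity)]
    nlinarith

/-- the means of `w` over cubes of side `R` tend to `c` in the mean, `R → ∞` -/
def ShortMeansBox (w : (Fin k → ℕ) → ℝ) (c : ℝ) : Prop :=
  ∀ ε : ℝ, 0 < ε → ∃ R : ℕ, 0 < R ∧ ∀ᶠ M : Fin k → ℕ in atTop,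
    ∑ m ∈ box M, |((R : ℝ) ^ k)⁻¹ * ∑ r ∈ box (fun _ : Fin k => R), w (m + r) - c| ≤
      ε * ∏ j, (M j : ℝ)

theorem ShortMeansBox.unfolds {w : (Fin k → ℕ) → ℝ} {c : ℝ} (hc : c ≠ 0)
    (h : ShortMeansBox w c) : UnfoldsBox w := by
  intro ε hε
  have hc' : 0 < |c| := abs_pos.2 hc
  obtain ⟨R, hR, hN⟩ := h (ε * |c|) (by positivity)
  refine ⟨box (fun _ : Fin k => R), fun _ => ((R : ℝ) ^ k)⁻¹ * c⁻¹, ?_⟩
  filter_upwards [hN] with N hN
  have e : ∀ n, |∑ r ∈ box (fun _ : Fin k => R), ((R : ℝ) ^ k)⁻¹ * c⁻¹ * w (n + r) - 1| =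
      |c|⁻¹ * |((R : ℝ) ^ k)⁻¹ * ∑ r ∈ box (fun _ : Fin k => R), w (n + r) - c| := by
    intro n
    rw [← abs_inv, ← abs_mul, ← Finset.mul_sum]
    congr 1
    rw [mul_sub, inv_mul_cancel₀ hc]
    ring
  rw [Finset.sum_congr rfl fun n _ => e n, ← Finset.mul_sum]
  rw [inv_mul_le_iff₀ hc']
  linarith

theorem per_window {q : ℕ} (hq : 0 < q) {p : (Fin k → ℕ) → ℝ} (hp : Per q p) (m : Fin k → ℕ) :
    ∑ r ∈ box (fun _ : Fin k => q), p (m + r) = ∑ r ∈ box (fun _ : Fin k => q), p r := by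
  classical
  obtain ⟨i, hi⟩ : ∃ i : (Fin k → ℕ) → (Fin k → ℕ), i = fun r j => (m j + r j) % q := ⟨_, rfl⟩
  have e1 : ∀ r, p (m + r) = p (i r) := by
    intro r
    rw [← hp (fun j => (m j + r j) / q) (i r)]
    congr 1
    funext j
    rw [hi]
    exact (Nat.div_add_mod _ _).symm
  have hinj : Set.InjOn i (box (fun _ : Fin k => q) : Set (Fin k → ℕ)) := by
    intro a ha b hb hab
    rw [Finset.mem_coe, mem_box] at ha hb
    funext j
    have h1 : (m j + a j) % q = (m j + b j) % q := by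
      have := congrFun hab j
      rw [hi] at this
      exact this
    have h2 : a j ≡ b j [MOD q] := Nat.ModEq.add_left_cancel' (m j) h1
    have h3 : a j % q = b j % q := h2
    rwa [Nat.mod_eq_of_lt (ha j), Nat.mod_eq_of_lt (hb j)] at h3
  have himg : (box (fun _ : Fin k => q)).image i = box (fun _ : Fin k => q) := by
    apply Finset.eq_of_subset_of_card_le
    · intro x hx
      obtain ⟨r, _, rfl⟩ := Finset.mem_image.1 hx
      rw [mem_box, hi]
      exact fun j => Nat.mod_lt _ hq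
    · rw [Finset.card_image_of_injOn hinj]
  rw [Finset.sum_congr rfl fun r _ => e1 r, ← Finset.sum_image (f := p) hinj, himg]

theorem sum_shift_le {f : (Fin k → ℕ) → ℝ} (hf : ∀ m, 0 ≤ f m) {M r Q : Fin k → ℕ}
    (hr : ∀ j, r j ≤ Q j) : ∑ m ∈ box M, f (m + r) ≤ ∑ n ∈ box (M + Q), f n := by
  classical
  have hinj : Set.InjOn (fun m : Fin k → ℕ => m + r) (box M : Set (Fin k → ℕ)) :=
    fun a _ b _ hab => add_right_cancel hab
  rw [← Finset.sum_image (f := f) hinj]
  refine Finset.sum_le_sum_of_subset_of_nonneg (fun x hx => ?_) fun x _ _ => hf x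
  obtain ⟨m, hm, rfl⟩ := Finset.mem_image.1 hx
  rw [mem_box] at hm ⊢
  intro j
  exact Nat.add_lt_add_of_lt_of_le (hm j) (hr j)

/-- rationally almost periodic weights of nonzero mean unfold -/
theorem RAPBox.unfolds {w : (Fin k → ℕ) → ℝ} (hw : RAPBox w) {c : ℝ} (hc : c ≠ 0)
    (hm : Tendsto (avgB w) atTop (𝓝 c)) : UnfoldsBox w := by
  intro η hη
  have hc' : 0 < |c| := abs_pos.2 hc
  obtain ⟨ε, hε, hε1, hε2⟩ : ∃ ε : ℝ, 0 < ε ∧ ε ≤ |c| / 2 ∧ 4 * ε ≤ η * |c| :=
    ⟨min (|c| / 2) (η * |c| / 4), by positivity, min_le_left _ _, by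
      have := min_le_right (|c| / 2) (η * |c| / 4)
      linarith⟩
  obtain ⟨q, hq, p, hp, hwp⟩ := hw ε hε
  have hq' : (0 : ℝ) < (q : ℝ) ^ k := by
    have : (0 : ℝ) < q := by exact_mod_cast hq
    positivity
  obtain ⟨S, hS⟩ : ∃ S, S = ∑ r ∈ box (fun _ : Fin k => q), p r := ⟨_, rfl⟩
  -- the mean of p
  have hqM : Tendsto (fun (M : Fin k → ℕ) (j : Fin k) => q * M j) atTop atTop := by
    refine tendsto_atTop_mono (fun M j => ?_) tendsto_id
    exact Nat.le_mul_of_pos_left _ hq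
  have h1 : ∀ᶠ M : Fin k → ℕ in atTop, |avgB w (fun j => q * M j) - S / (q : ℝ) ^ k| ≤ ε := by
    filter_upwards [hqM.eventually hwp, ev_pos] with M a1 a2
    have b1 := avgB_diff (a := w) (b := p) (u := fun _ => 1) (B := 1) zero_le_one
      (fun _ => by simp) (M := fun j => q * M j) (fun j => Nat.mul_pos hq (a2 j)) a1
    have hP : ∏ j, (M j : ℝ) ≠ 0 := Finset.prod_ne_zero_iff.2 fun j _ => by
      have := a2 j
      exact_mod_cast (by omega : M j ≠ 0)
    have e1 : avgB (fun n => p n * 1) (fun j => q * M j) = S / (q : ℝ) ^ k := by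
      unfold avgB
      rw [block_box _ hq]
      have e2 : ∑ m ∈ box M, ∑ r ∈ box (fun _ : Fin k => q), p (fun j => q * m j + r j) * 1 =
          (∏ j, (M j : ℝ)) * S := by
        rw [Finset.sum_congr rfl fun m _ => Finset.sum_congr rfl fun r _ => by rw [hp, mul_one],
          Finset.sum_const, nsmul_eq_mul, card_box, hS]
      have e3 : ∏ j : Fin k, (((q * M j : ℕ)) : ℝ) = (q : ℝ) ^ k * ∏ j, (M j : ℝ) := by
        push_cast
        rw [Finset.prod_mul_distrib, Finset.prod_const, Finset.card_univ, Fintype.card_fin]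
      rw [e2, e3]
      field_simp
    have e4 : avgB (fun n => w n * 1) (fun j => q * M j) = avgB w (fun j => q * M j) := by
      simp only [mul_one]
    rw [e1, e4, mul_one] at b1
    exact b1
  have h2 : |c - S / (q : ℝ) ^ k| ≤ ε :=
    le_of_tendsto ((hm.comp hqM).sub_const _).abs h1
  have hSc : |c| / 2 ≤ |S| / (q : ℝ) ^ k := by
    have h3 : |S / (q : ℝ) ^ k| = |S| / (q : ℝ) ^ k := by rw [abs_div, abs_of_pos hq']
    rw [← h3]
    have h4 : |c| ≤ |c - S / (q : ℝ) ^ k| + |S / (q : ℝ) ^ k| := by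
      calc |c| = |(c - S / (q : ℝ) ^ k) + S / (q : ℝ) ^ k| := by rw [sub_add_cancel]
        _ ≤ _ := abs_add_le _ _
    linarith
  have hSp : 0 < |S| := by
    have : 0 < |S| / (q : ℝ) ^ k := lt_of_lt_of_le (by positivity) hSc
    exact (div_pos_iff_of_pos_right hq').1 this
  have hS0 : S ≠ 0 := abs_pos.1 hSp
  refine ⟨box (fun _ : Fin k => q), fun _ => S⁻¹, ?_⟩
  obtain ⟨Q, hQ⟩ : ∃ Q : Fin k → ℕ, Q = fun _ => q := ⟨_, rfl⟩
  have hT : Tendsto (fun M : Fin k → ℕ => M + Q) atTop atTop :=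
    tendsto_atTop_mono (fun M => (le_add_iff_nonneg_right M).2 (fun j => Nat.zero_le _)) tendsto_id
  have h5 : ∀ᶠ M : Fin k → ℕ in atTop,
      (∏ j, ((M + Q) j : ℝ)) / ∏ j, (M j : ℝ) < 2 :=
    (ratio_shift Q).eventually_lt_const (by norm_num)
  filter_upwards [hT.eventually hwp, h5, ev_pos] with M a1 a2 a3
  have hP : 0 < ∏ j, (M j : ℝ) := Finset.prod_pos fun j _ => by
    have := a3 j
    exact_mod_cast (by omega : 0 < M j)
  rw [div_lt_iff₀ hP] at a2
  have b2 : ∀ m : Fin k → ℕ, |∑ r ∈ box (fun _ : Fin k => q), S⁻¹ * w (m + r) - 1| ≤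
      |S|⁻¹ * ∑ r ∈ box (fun _ : Fin k => q), |w (m + r) - p (m + r)| := by
    intro m
    have e1 : ∑ r ∈ box (fun _ : Fin k => q), S⁻¹ * w (m + r) - 1 =
        S⁻¹ * ∑ r ∈ box (fun _ : Fin k => q), (w (m + r) - p (m + r)) := by
      rw [Finset.sum_sub_distrib, per_window hq hp, ← hS, mul_sub, inv_mul_cancel₀ hS0,
        Finset.mul_sum]
    rw [e1, abs_mul, abs_inv]
    exact mul_le_mul_of_nonneg_left (Finset.abs_sum_le_sum_abs _ _) (by positivity)
  calc ∑ m ∈ box M, |∑ r ∈ box (fun _ : Fin k => q), S⁻¹ * w (m + r) - 1|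
      ≤ ∑ m ∈ box M, |S|⁻¹ * ∑ r ∈ box (fun _ : Fin k => q), |w (m + r) - p (m + r)| :=
        Finset.sum_le_sum fun m _ => b2 m
    _ = |S|⁻¹ * ∑ r ∈ box (fun _ : Fin k => q), ∑ m ∈ box M, |w (m + r) - p (m + r)| := by
        rw [← Finset.mul_sum, Finset.sum_comm]
    _ ≤ |S|⁻¹ * ∑ _r ∈ box (fun _ : Fin k => q), ε * ∏ j, ((M + Q) j : ℝ) := by
        apply mul_le_mul_of_nonneg_left _ (by positivity)
        refine Finset.sum_le_sum fun r hr => ?_
        rw [mem_box] at hr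
        exact (sum_shift_le (f := fun n => |w n - p n|) (fun n => abs_nonneg _)
          (Q := Q) (fun j => by rw [hQ]; exact (hr j).le)).trans a1
    _ = |S|⁻¹ * ((q : ℝ) ^ k * (ε * ∏ j, ((M + Q) j : ℝ))) := by
        rw [Finset.sum_const, nsmul_eq_mul, card_box, Finset.prod_const, Finset.card_univ,
          Fintype.card_fin]
    _ ≤ |S|⁻¹ * ((q : ℝ) ^ k * (ε * (2 * ∏ j, (M j : ℝ)))) := by
        apply mul_le_mul_of_nonneg_left _ (by positivity)
        apply mul_le_mul_of_nonneg_left _ hq'.le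
        exact mul_le_mul_of_nonneg_left a2.le hε.le
    _ = (2 * ε * ((q : ℝ) ^ k / |S|)) * ∏ j, (M j : ℝ) := by
        field_simp
    _ ≤ η * ∏ j, (M j : ℝ) := by
        apply mul_le_mul_of_nonneg_right _ hP.le
        rw [mul_div_assoc', div_le_iff₀ hSp]
        rw [div_le_div_iff₀ two_pos hq'] at hSc
        nlinarith

end Pool.Agent.X159.PE
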