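import Pool.Agent.X159.WM.Core

/-!
# Averages with weights `1 * g` (Dirichlet convolution), deterministic part
-/

set_option autoImplicit false

namespace Pool.Agent.X159.PE.Conv

open Filter Topology Finset ArithmeticFunction

/-- averages over `1 ≤ n ≤ N` -/
noncomputable def avgC (v : ℕ → ℂ) (N : ℕ) : ℂ := (N : ℂ)⁻¹ * ∑ n ∈ Icc 1 N, v n

/-- convergence -/
def CvC (s : ℕ → ℂ) : Prop := ∃ L : ℂ, Tendsto s atTop (𝓝 L)

theorem swapC (K : ℕ) (F : ℕ → ℕ → ℂ) :
    ∑ n ∈ Finset.Icc 1 K, ∑ x ∈ n.divisorsAntidiagonal, F x.1 x.2 =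
      ∑ d ∈ Finset.Icc 1 K, ∑ m ∈ Finset.Icc 1 (K / d), F d m := by
  rw [Finset.sum_sigma', Finset.sum_sigma']
  refine Finset.sum_bij' (fun x _ => ⟨x.2.1, x.2.2⟩) (fun x _ => ⟨x.1 * x.2, (x.1, x.2)⟩)
    ?_ ?_ ?_ ?_ ?_
  · rintro ⟨n, d, m⟩ h
    simp only [Finset.mem_sigma, Finset.mem_Icc, Nat.mem_divisorsAntidiagonal] at h ⊢
    obtain ⟨⟨h1, h2⟩, h3, h4⟩ := h
    have hd : d ≠ 0 := by rintro rfl; simp at h3; omega
    have hm : m ≠ 0 := by rintro rfl; simp at h3; omega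
    refine ⟨⟨Nat.pos_of_ne_zero hd, ?_⟩, Nat.pos_of_ne_zero hm, ?_⟩
    · calc d ≤ d * m := Nat.le_mul_of_pos_right _ (Nat.pos_of_ne_zero hm)
        _ ≤ K := by omega
    · rw [Nat.le_div_iff_mul_le (Nat.pos_of_ne_zero hd), mul_comm]
      omega
  · rintro ⟨d, m⟩ h
    simp only [Finset.mem_sigma, Finset.mem_Icc, Nat.mem_divisorsAntidiagonal] at h ⊢
    obtain ⟨⟨h1, h2⟩, h3, h4⟩ := h
    rw [Nat.le_div_iff_mul_le (by omega), mul_comm] at h4
    exact ⟨⟨Nat.mul_pos h1 h3, h4⟩, trivial, (Nat.mul_pos h1 h3).ne'⟩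
  · rintro ⟨n, d, m⟩ h
    simp only [Finset.mem_sigma, Finset.mem_Icc, Nat.mem_divisorsAntidiagonal] at h
    obtain ⟨-, h3, -⟩ := h
    subst h3
    rfl
  · rintro ⟨d, m⟩ _
    rfl
  · rintro ⟨n, d, m⟩ _
    rfl

theorem tannery {h : ℕ → ℝ} (hh : Summable fun d : ℕ => |h d| / (d : ℝ)) {V : ℕ → ℕ → ℂ} {B : ℝ}
    (hB0 : 0 ≤ B) (hB : ∀ d M : ℕ, 1 ≤ d → ∑ m ∈ Icc 1 M, ‖V d m‖ ≤ B * M)
    (hV : ∀ d, 1 ≤ d → CvC (avgC (V d))) :
    CvC (avgC fun n => ∑ x ∈ n.divisorsAntidiagonal, (h x.1 : ℂ) * V x.1 x.2) := by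
  choose! L hL using hV
  obtain ⟨F, hF⟩ : ∃ F : ℕ → ℕ → ℂ, F = fun (N d : ℕ) =>
      (h d : ℂ) * ((N : ℂ)⁻¹ * ∑ m ∈ Icc 1 (N / d), V d m) := ⟨_, rfl⟩
  have hF0 : ∀ N, F N 0 = 0 := by
    intro N
    rw [hF]
    simp
  have e1 : ∀ N, avgC (fun n => ∑ x ∈ n.divisorsAntidiagonal, (h x.1 : ℂ) * V x.1 x.2) N =
      ∑' d, F N d := by
    intro N
    rw [tsum_eq_sum (s := Icc 1 N)]
    · unfold avgC
      rw [swapC N (fun d m => (h d : ℂ) * V d m), Finset.mul_sum]
      refine Finset.sum_congr rfl fun d _ => ?_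
      rw [hF]
      show _ = (h d : ℂ) * ((N : ℂ)⁻¹ * ∑ m ∈ Icc 1 (N / d), V d m)
      rw [← Finset.mul_sum]
      ring
    · intro d hd
      rw [Finset.mem_Icc, not_and_or] at hd
      rcases Nat.eq_zero_or_pos d with h0 | h0
      · rw [h0, hF0]
      · have h1 : N / d = 0 := Nat.div_eq_of_lt (by omega)
        rw [hF]
        show (h d : ℂ) * ((N : ℂ)⁻¹ * ∑ m ∈ Icc 1 (N / d), V d m) = 0
        rw [h1]
        simp
  have hb : ∀ N d, ‖F N d‖ ≤ B * (|h d| / (d : ℝ)) := by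
    intro N d
    rcases Nat.eq_zero_or_pos d with h0 | h0
    · rw [h0, hF0, norm_zero]
      positivity
    · have hd : (0 : ℝ) < d := by exact_mod_cast h0
      rw [hF]
      show ‖(h d : ℂ) * ((N : ℂ)⁻¹ * ∑ m ∈ Icc 1 (N / d), V d m)‖ ≤ _
      rw [norm_mul, norm_mul, norm_inv, Complex.norm_natCast, Complex.norm_real, Real.norm_eq_abs]
      have h1 : ‖∑ m ∈ Icc 1 (N / d), V d m‖ ≤ B * (N / d : ℝ) := by
        refine (norm_sum_le _ _).trans ((hB d (N / d) h0).trans ?_)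
        exact mul_le_mul_of_nonneg_left Nat.cast_div_le hB0
      rcases Nat.eq_zero_or_pos N with hN | hN
      · rw [hN]
        simp
        positivity
      · have hN' : (0 : ℝ) < N := by exact_mod_cast hN
        calc |h d| * ((N : ℝ)⁻¹ * ‖∑ m ∈ Icc 1 (N / d), V d m‖)
            ≤ |h d| * ((N : ℝ)⁻¹ * (B * (N / d : ℝ))) := by
              apply mul_le_mul_of_nonneg_left _ (abs_nonneg _)
              exact mul_le_mul_of_nonneg_left h1 (by positivity)
          _ = B * (|h d| / (d : ℝ)) := by field_simp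
  have hl : ∀ d, Tendsto (fun N => F N d) atTop (𝓝 (if d = 0 then 0 else (h d : ℂ) * (L d / d))) := by
    intro d
    rcases Nat.eq_zero_or_pos d with h0 | h0
    · rw [if_pos h0, h0]
      simp only [hF0]
      exact tendsto_const_nhds
    · rw [if_neg h0.ne']
      have hdc : (d : ℂ) ≠ 0 := by exact_mod_cast h0.ne'
      have h1 : Tendsto (fun N : ℕ => ((N / d : ℕ) : ℂ) / (N : ℂ)) atTop (𝓝 (1 / (d : ℂ))) := by
        have h2 : Tendsto (fun N : ℕ => ((N / d : ℕ) : ℝ) / (N : ℝ)) atTop (𝓝 (1 / (d : ℝ))) := by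
          have hd : (0 : ℝ) < d := by exact_mod_cast h0
          have h3 : Tendsto (fun n : ℕ => 1 / (d : ℝ) - (1 : ℝ) / (n : ℝ)) atTop
              (𝓝 (1 / (d : ℝ))) := by
            have := (tendsto_const_div_atTop_nhds_zero_nat (1 : ℝ)).const_sub (1 / (d : ℝ))
            rwa [sub_zero] at this
          refine tendsto_of_tendsto_of_tendsto_of_le_of_le' h3 tendsto_const_nhds ?_ ?_
          · filter_upwards [eventually_ge_atTop 1] with n hn
            have hn' : (0 : ℝ) < n := by exact_mod_cast hn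
            have h4 := Nat.lt_mul_div_succ n h0
            have h5 : (n : ℝ) < d * (((n / d : ℕ) : ℝ) + 1) := by exact_mod_cast h4
            rw [div_sub_div _ _ hd.ne' hn'.ne', div_le_div_iff₀ (by positivity) hn']
            nlinarith
          · filter_upwards [eventually_ge_atTop 1] with n hn
            have hn' : (0 : ℝ) < n := by exact_mod_cast hn
            rw [div_le_div_iff₀ hn' hd]
            have h4 : ((n / d : ℕ) : ℝ) ≤ n / d := Nat.cast_div_le
            rw [le_div_iff₀ hd] at h4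
            linarith
        have h3 := (Complex.continuous_ofReal.tendsto _).comp h2
        refine (h3.congr fun N => ?_).trans_eq ?_
        · simp
        · simp
      have h2 : Tendsto (fun N : ℕ => avgC (V d) (N / d)) atTop (𝓝 (L d)) :=
        (hL d h0).comp (Nat.tendsto_div_const_atTop h0.ne')
      have h3 := ((h1.mul h2).const_mul (h d : ℂ))
      have e : (1 / (d : ℂ)) * L d = L d / d := by ring
      rw [e] at h3
      refine h3.congr' ?_
      filter_upwards [eventually_ge_atTop d] with N hN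
      have hq : ((N / d : ℕ) : ℂ) ≠ 0 := by
        have := Nat.div_pos hN h0
        exact_mod_cast this.ne'
      rw [hF]
      show (h d : ℂ) * (((N / d : ℕ) : ℂ) / (N : ℂ) *
        (((N / d : ℕ) : ℂ)⁻¹ * ∑ m ∈ Icc 1 (N / d), V d m)) =
        (h d : ℂ) * ((N : ℂ)⁻¹ * ∑ m ∈ Icc 1 (N / d), V d m)
      field_simp
  refine ⟨∑' d, (if d = 0 then 0 else (h d : ℂ) * (L d / d)), ?_⟩
  have ht := tendsto_tsum_of_dominated_convergence (hh.mul_left B) hl
    (Eventually.of_forall fun N d => hb N d)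
  exact ht.congr fun N => (e1 N).symm

/-- two-sided averages -/
noncomputable def avg2 (a : ℤ → ℂ) (N : ℕ) : ℂ :=
  ((2 * N + 1 : ℕ) : ℂ)⁻¹ * ∑ n ∈ Icc (-(N : ℤ)) (N : ℤ), a n

theorem sum_two (a : ℤ → ℂ) (N : ℕ) : ∑ n ∈ Icc (-(N : ℤ)) (N : ℤ), a n =
    a 0 + ∑ n ∈ Icc 1 N, (a (n : ℤ) + a (-(n : ℤ))) := by
  induction N with
  | zero => simp
  | succ N ih =>
    rw [Finset.sum_Icc_succ_top (by omega)]
    have h1 : Icc (-((N + 1 : ℕ) : ℤ)) ((N + 1 : ℕ) : ℤ) =
        insert (((N + 1 : ℕ) : ℤ)) (insert (-((N + 1 : ℕ) : ℤ)) (Icc (-(N : ℤ)) (N : ℤ))) := by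
      ext z
      simp only [Finset.mem_Icc, Finset.mem_insert]
      push_cast
      omega
    rw [h1, Finset.sum_insert, Finset.sum_insert, ih]
    · push_cast
      ring
    · simp only [Finset.mem_Icc]
      push_cast
      omega
    · simp only [Finset.mem_Icc, Finset.mem_insert]
      push_cast
      omega

theorem two_iff (a : ℤ → ℂ) : CvC (avg2 a) ↔ CvC (avgC fun n => a (n : ℤ) + a (-(n : ℤ))) := by
  have t1 : Tendsto (fun n : ℕ => (n : ℂ)⁻¹) atTop (𝓝 0) := by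
    have := (Complex.continuous_ofReal.tendsto 0).comp
      (tendsto_inv_atTop_zero.comp tendsto_natCast_atTop_atTop : Tendsto (fun n : ℕ => (n : ℝ)⁻¹)
        atTop (𝓝 0))
    simpa [Function.comp_def] using this
  have t2 : Tendsto (fun n : ℕ => (2 + (n : ℂ)⁻¹)) atTop (𝓝 2) := by
    simpa using t1.const_add (2 : ℂ)
  constructor
  · rintro ⟨L, hL⟩
    refine ⟨2 * L, ?_⟩
    have h1 := (t2.mul hL).sub (t1.const_mul (a 0))
    rw [mul_zero, sub_zero] at h1
    refine h1.congr' ?_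
    filter_upwards [eventually_ge_atTop 1] with N hN
    have hN' : (N : ℂ) ≠ 0 := by exact_mod_cast (by omega : N ≠ 0)
    have hN2 : ((2 * N + 1 : ℕ) : ℂ) ≠ 0 := by exact_mod_cast (by omega : 2 * N + 1 ≠ 0)
    unfold avg2 avgC
    rw [sum_two]
    push_cast at hN2 ⊢
    field_simp
    ring
  · rintro ⟨L, hL⟩
    refine ⟨2⁻¹ * L, ?_⟩
    have t3 := t2.inv₀ two_ne_zero
    have h1 := (t3.mul (hL.add (t1.const_mul (a 0))))
    rw [mul_zero, add_zero] at h1
    refine h1.congr' ?_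
    filter_upwards [eventually_ge_atTop 1] with N hN
    have hN' : (N : ℂ) ≠ 0 := by exact_mod_cast (by omega : N ≠ 0)
    have hN2 : ((2 * N + 1 : ℕ) : ℂ) ≠ 0 := by exact_mod_cast (by omega : 2 * N + 1 ≠ 0)
    have hN3 : (2 + (N : ℂ)⁻¹) ≠ 0 := by
      intro h0
      apply hN2
      push_cast
      have : (2 * (N : ℂ) + 1) = N * (2 + (N : ℂ)⁻¹) := by field_simp
      rw [this, h0, mul_zero]
    unfold avg2 avgC
    rw [sum_two]
    have e : ((2 * N + 1 : ℕ) : ℂ) = N * (2 + (N : ℂ)⁻¹) := by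
      push_cast
      field_simp
    rw [e, mul_inv]
    field_simp
    ring

end Pool.Agent.X159.PE.Conv
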