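import Pool.Agent.X159.PE.Susp
import Pool.Agent.X159.PE.Avg

/-!
# Pointwise multiple averages with rationally almost periodic weights
-/

set_option autoImplicit false

namespace Pool.Agent.X159.PE

open MeasureTheory Filter Topology Finset

/-- for every measure preserving map `T` of a probability space and all bounded `f, g_j`, the averages
of `w(n) f(T^n x) ∏_j g_j(T^(a_j n) x)` converge for almost every `x` -/
def Pointwise (w : ℕ → ℝ) {k : ℕ} (a : Fin k → ℕ) : Prop :=
  ∀ (X : Type) [MeasurableSpace X] (μ : Measure X) [IsProbabilityMeasure μ] (T : X → X),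
    MeasurePreserving T μ μ →
    ∀ (f : X → ℝ) (g : Fin k → X → ℝ), MemLp f ⊤ μ → (∀ j, MemLp (g j) ⊤ μ) →
      ∀ᵐ x ∂μ, ∃ L : ℝ,
        Tendsto (fun N : ℕ => (N : ℝ)⁻¹ *
            ∑ n ∈ Icc 1 N, w n * (f (T^[n] x) * ∏ j, g j (T^[a j * n] x)))
          atTop (𝓝 L)

variable {X : Type} [MeasurableSpace X] {μ : Measure X}

theorem bdd {f : X → ℝ} (hf : MemLp f ⊤ μ) : ∃ C : ℝ, 0 ≤ C ∧ ∀ᵐ x ∂μ, |f x| ≤ C := by
  refine ⟨(eLpNormEssSup f μ).toReal, ENNReal.toReal_nonneg, ?_⟩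
  have hfin : eLpNormEssSup f μ ≠ ⊤ := by
    have := hf.2
    rw [eLpNorm_exponent_top] at this
    exact this.ne
  filter_upwards [ae_le_eLpNormEssSup (f := f) (μ := μ)] with x hx
  rw [← Real.norm_eq_abs, ← toReal_enorm]
  exact ENNReal.toReal_mono hfin hx

theorem prod_bdd {T : X → X} (hT : MeasurePreserving T μ μ) {f : X → ℝ} {k : ℕ}
    {g : Fin k → X → ℝ} (hf : MemLp f ⊤ μ) (hg : ∀ j, MemLp (g j) ⊤ μ) (a : Fin k → ℕ) :
    ∃ B : ℝ, ∀ᵐ x ∂μ, ∀ n : ℕ, |f (T^[n] x) * ∏ j, g j (T^[a j * n] x)| ≤ B := by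
  obtain ⟨C, hC, h1⟩ := bdd hf
  have h2 : ∀ j, ∃ C : ℝ, 0 ≤ C ∧ ∀ᵐ x ∂μ, |g j x| ≤ C := fun j => bdd (hg j)
  choose D hD h3 using h2
  refine ⟨C * ∏ j, D j, ?_⟩
  have h4 : ∀ᵐ x ∂μ, ∀ n : ℕ, |f (T^[n] x)| ≤ C := by
    rw [ae_all_iff]
    exact fun n => (hT.iterate n).quasiMeasurePreserving.ae h1
  have h5 : ∀ᵐ x ∂μ, ∀ (j : Fin k) (n : ℕ), |g j (T^[n] x)| ≤ D j := by
    rw [ae_all_iff]
    intro j
    rw [ae_all_iff]
    exact fun n => (hT.iterate n).quasiMeasurePreserving.ae (h3 j)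
  filter_upwards [h4, h5] with x a1 a2
  intro n
  rw [abs_mul, Finset.abs_prod]
  exact mul_le_mul (a1 n) (Finset.prod_le_prod (fun j _ => abs_nonneg _) fun j _ => a2 j _)
    (Finset.prod_nonneg fun j _ => abs_nonneg _) hC

theorem fwd {w : ℕ → ℝ} (hw : RAP w) {k : ℕ} (a : Fin k → ℕ) (h : Pointwise (fun _ => 1) a) :
    Pointwise w a := by
  intro X _ μ _ T hT f g hf hg
  obtain ⟨B, hB⟩ := prod_bdd hT hf hg a
  have h1 : ∀ᵐ x ∂μ, ∀ q : ℕ, 0 < q → ∀ r < q,
      Cv (avgI fun m => f (T^[q * m + r] x) * ∏ j, g j (T^[a j * (q * m + r)] x)) := by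
    rw [ae_all_iff]
    intro q
    rw [ae_all_iff]
    intro hq
    rw [ae_all_iff]
    intro r
    rw [ae_all_iff]
    intro hr
    have h2 := h X μ (T^[q]) (hT.iterate q) (f ∘ T^[r]) (fun j => g j ∘ T^[a j * r])
      (hf.comp_measurePreserving (hT.iterate r))
      (fun j => (hg j).comp_measurePreserving (hT.iterate _))
    filter_upwards [h2] with x hx
    obtain ⟨L, hL⟩ := hx
    refine ⟨L, hL.congr fun N => ?_⟩
    unfold avgI
    congr 1
    refine Finset.sum_congr rfl fun n _ => ?_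
    rw [one_mul]
    have e : ∀ s t : ℕ, T^[s] ((T^[q])^[t] x) = T^[s + q * t] x := by
      intro s t
      rw [← Function.iterate_mul, ← Function.iterate_add_apply]
    simp only [Function.comp_apply]
    rw [e, add_comm r]
    congr 1
    refine Finset.prod_congr rfl fun j _ => ?_
    rw [e]
    congr 2
    ring
  filter_upwards [hB, h1] with x a1 a2
  exact forward hw a1 a2

theorem null_fwd {w : ℕ → ℝ} (hw : Null w) {k : ℕ} (a : Fin k → ℕ) : Pointwise w a := by
  intro X _ μ _ T hT f g hf hg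
  obtain ⟨B, hB⟩ := prod_bdd hT hf hg a
  filter_upwards [hB] with x a1
  exact null_case hw a1

/-- the averages with the weights `m ↦ w (q m + r)` -/
theorem class_ae {w : ℕ → ℝ} {k : ℕ} (a : Fin k → ℕ)
    (h : Pointwise w a) [IsProbabilityMeasure μ] {R : X → X} (hR : MeasurePreserving R μ μ)
    {f : X → ℝ} {g : Fin k → X → ℝ} (hfm : Measurable f) (hgm : ∀ j, Measurable (g j))
    (hf : MemLp f ⊤ μ) (hg : ∀ j, MemLp (g j) ⊤ μ) {q : ℕ} (hq : 0 < q) (r : ℕ) :
    ∀ᵐ x ∂μ, Cv (avgR fun m => w (q * m + r) *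
      (f (R^[m] x) * ∏ j, g j (R^[a j * m] x))) := by
  obtain ⟨s, r0, hr0, hr⟩ : ∃ s r0 : ℕ, r0 < q ∧ q * s + r0 = r :=
    ⟨r / q, r % q, Nat.mod_lt _ hq, Nat.div_add_mod r q⟩
  obtain ⟨A, hA⟩ : ∃ A : ℕ, A = s + (∑ j, a j) * (s + 1) := ⟨_, rfl⟩
  have hAs : s ≤ A := by omega
  have hAj : ∀ j, a j * s + (a j * r0) / q ≤ A := by
    intro j
    have e3 : (a j * r0) / q ≤ a j := by
      apply Nat.div_le_of_le_mul
      rw [mul_comm q]
      exact Nat.mul_le_mul_left _ hr0.le
    have e4 : a j ≤ ∑ j, a j :=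
      Finset.single_le_sum (f := a) (fun _ _ => Nat.zero_le _) (Finset.mem_univ j)
    calc a j * s + (a j * r0) / q ≤ a j * s + a j := Nat.add_le_add_left e3 _
      _ = a j * (s + 1) := by ring
      _ ≤ (∑ j, a j) * (s + 1) := Nat.mul_le_mul_right _ e4
      _ ≤ A := by omega
  obtain ⟨u, hu⟩ : ∃ u : X → ℕ → ℝ, u = fun x n => f (R^[n] x) * ∏ j, g j (R^[a j * n] x) :=
    ⟨_, rfl⟩
  have hgoal : (∀ᵐ x ∂μ, Cv (avgR fun m => w (q * m + r) * u x m)) →
      ∀ᵐ x ∂μ, Cv (avgR fun m => w (q * m + r) *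
        (f (R^[m] x) * ∏ j, g j (R^[a j * m] x))) := by
    rw [hu]
    exact id
  refine hgoal ?_
  have hprob := unif_prob hq
  have hsnd : ∀ s : ℕ, MeasurePreserving (fun z : Fin q × X => R^[s] z.2)
      ((unif q).prod μ) μ := fun s => (hR.iterate s).comp measurePreserving_snd
  have hF : MemLp (fun z : Fin q × X => if z.1.1 = r0 then f (R^[A - s] z.2) else 0) ⊤
      ((unif q).prod μ) := by
    have e : (fun z : Fin q × X => if z.1.1 = r0 then f (R^[A - s] z.2) else 0) =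
        Set.indicator {z : Fin q × X | z.1.1 = r0} (fun z => f (R^[A - s] z.2)) := by
      funext z
      rw [Set.indicator_apply]
      rfl
    rw [e]
    refine MemLp.indicator ?_ (hf.comp_measurePreserving (hsnd (A - s)))
    exact measurable_fst (MeasurableSet.of_discrete (s := {i : Fin q | i.1 = r0}))
  have h2 := h (Fin q × X) ((unif q).prod μ) (susp hq R) (susp_mp hq hR)
    (fun z => if z.1.1 = r0 then f (R^[A - s] z.2) else 0)
    (fun j z => g j (R^[A - (a j * s + (a j * r0) / q)] z.2)) hF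
    (fun j => (hg j).comp_measurePreserving (hsnd _))
  have h3 : ∀ᵐ x ∂μ, Cv (avgR fun m => w (q * m + r) * u (R^[A] x) m) := by
    filter_upwards [floor_ae hq h2] with x hx
    obtain ⟨U, hU⟩ : ∃ U : ℕ → ℝ, U = fun l => f (R^[(A - s) + l] x) *
        ∏ j, g j (R^[(A - (a j * s + (a j * r0) / q)) + (a j * l + (a j * r0) / q)] x) :=
      ⟨_, rfl⟩
    have h4 : Cv (avgI fun n => w n * (if n % q = r0 then U (n / q) else 0)) := by
      obtain ⟨L, hL⟩ := hx
      refine ⟨L, hL.congr fun N => ?_⟩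
      unfold avgI
      congr 1
      refine Finset.sum_congr rfl fun n _ => ?_
      congr 1
      rw [susp_iter]
      show (if n % q = r0 then f (R^[A - s] (R^[n / q] x)) else 0) * _ = _
      by_cases hnr : n % q = r0
      · rw [if_pos hnr, if_pos hnr]
        rw [← Function.iterate_add_apply, hU]
        show _ = f (R^[(A - s) + n / q] x) * ∏ j, g j (R^[(A - (a j * s + (a j * r0) / q)) +
          (a j * (n / q) + (a j * r0) / q)] x)
        congr 1
        refine Finset.prod_congr rfl fun j _ => ?_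
        rw [susp_iter]
        show g j (R^[A - (a j * s + (a j * r0) / q)] (R^[(a j * n) / q] x)) = _
        rw [← Function.iterate_add_apply]
        have e1 : (a j * n) / q = a j * (n / q) + (a j * r0) / q := by
          conv_lhs => rw [← Nat.div_add_mod n q, hnr]
          rw [Nat.mul_add, ← mul_assoc, mul_comm (a j) q, mul_assoc, Nat.mul_add_div hq]
        rw [e1]
      · rw [if_neg hnr, if_neg hnr, zero_mul]
    have h5 : Cv (avgR fun m => w (q * (m + s) + r0) * U (m + s)) :=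
      Cv_shift (v := fun m => w (q * m + r0) * U m) (class_Cv (u := U) hq hr0 h4) s
    obtain ⟨L, hL⟩ := h5
    refine ⟨L, hL.congr fun N => ?_⟩
    unfold avgR
    congr 1
    refine Finset.sum_congr rfl fun m _ => ?_
    rw [hu, hU]
    show w (q * (m + s) + r0) * (f (R^[(A - s) + (m + s)] x) *
      ∏ j, g j (R^[(A - (a j * s + (a j * r0) / q)) + (a j * (m + s) + (a j * r0) / q)] x)) =
      w (q * m + r) * (f (R^[m] (R^[A] x)) * ∏ j, g j (R^[a j * m] (R^[A] x)))
    have e1 : q * (m + s) + r0 = q * m + r := by rw [← hr]; ring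
    have e2 : (A - s) + (m + s) = m + A := by omega
    rw [e1, e2, Function.iterate_add_apply]
    congr 2
    refine Finset.prod_congr rfl fun j _ => ?_
    have e3 : (A - (a j * s + (a j * r0) / q)) + (a j * (m + s) + (a j * r0) / q) =
        a j * m + A := by
      have := hAj j
      rw [Nat.mul_add]
      omega
    rw [e3, Function.iterate_add_apply]
  have hum : ∀ n, Measurable fun x => u x n := by
    intro n
    rw [hu]
    exact (hfm.comp (hR.measurable.iterate n)).mul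
      (Finset.measurable_fun_prod _ fun j _ => (hgm j).comp (hR.measurable.iterate _))
  have hs : MeasurableSet {x | Cv (avgR fun m => w (q * m + r) * u x m)} := by
    refine MeasureTheory.measurableSet_exists_tendsto
      (f := fun N x => avgR (fun m => w (q * m + r) * u x m) N) fun N => ?_
    unfold avgR
    exact (Finset.measurable_fun_sum _ fun n _ => (hum n).const_mul _).const_mul _
  rw [ae_iff]
  have h4 : μ ((R^[A]) ⁻¹' {x | Cv (avgR fun m => w (q * m + r) * u x m)}ᶜ) = 0 := ae_iff.1 h3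
  rw [(hR.iterate A).measure_preimage hs.compl.nullMeasurableSet] at h4
  exact h4

theorem bwd {w : ℕ → ℝ} (hw : Unfolds w) {k : ℕ} (a : Fin k → ℕ)
    (h : Pointwise w a) : Pointwise (fun _ => 1) a := by
  intro X _ μ _ R hR f g hf hg
  obtain ⟨f0, hf0m, hf0⟩ : ∃ f0 : X → ℝ, Measurable f0 ∧ f =ᵐ[μ] f0 :=
    ⟨hf.aestronglyMeasurable.mk f, hf.aestronglyMeasurable.stronglyMeasurable_mk.measurable,
      hf.aestronglyMeasurable.ae_eq_mk⟩
  have hg' : ∀ j, ∃ g0 : X → ℝ, Measurable g0 ∧ g j =ᵐ[μ] g0 := fun j =>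
    ⟨(hg j).aestronglyMeasurable.mk (g j),
      (hg j).aestronglyMeasurable.stronglyMeasurable_mk.measurable,
      (hg j).aestronglyMeasurable.ae_eq_mk⟩
  choose g0 hg0m hg0 using hg'
  have hf' : MemLp f0 ⊤ μ := hf.ae_eq hf0
  have hg'' : ∀ j, MemLp (g0 j) ⊤ μ := fun j => (hg j).ae_eq (hg0 j)
  obtain ⟨B, hB⟩ := prod_bdd hR hf' hg'' a
  have h0 : ∀ᵐ x ∂μ, ∀ q : ℕ, 0 < q → ∀ r : ℕ, Cv (avgI fun m => w (q * m + r) *
      (f0 (R^[m] x) * ∏ j, g0 j (R^[a j * m] x))) := by
    rw [ae_all_iff]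
    intro q
    rw [ae_all_iff]
    intro hq
    rw [ae_all_iff]
    intro r
    filter_upwards [class_ae a h hR hf0m hg0m hf' hg'' hq r] with x hx
    exact (Cv_avg_iff _).2 hx
  have h2 : ∀ᵐ x ∂μ, ∀ n, f (R^[n] x) = f0 (R^[n] x) := by
    rw [ae_all_iff]
    exact fun n => (hR.iterate n).quasiMeasurePreserving.ae hf0
  have h3 : ∀ᵐ x ∂μ, ∀ (j : Fin k) (n : ℕ), g j (R^[n] x) = g0 j (R^[n] x) := by
    rw [ae_all_iff]
    intro j
    rw [ae_all_iff]
    exact fun n => (hR.iterate n).quasiMeasurePreserving.ae (hg0 j)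
  filter_upwards [hB, h0, h2, h3] with x b1 b2 a2 a3
  obtain ⟨L, hL⟩ := backward hw b1 b2
  refine ⟨L, hL.congr fun N => ?_⟩
  unfold avgI
  congr 1
  refine Finset.sum_congr rfl fun n _ => ?_
  simp only [one_mul, a2, a3]

/-- weighted and unweighted averages -/
theorem main {w : ℕ → ℝ} (hw : RAP w) {k : ℕ} (a : Fin k → ℕ) :
    Pointwise w a ↔ (Null w ∨ Pointwise (fun _ => 1) a) := by
  constructor
  · intro h
    by_cases hn : Null w
    · exact Or.inl hn
    · exact Or.inr (bwd (hw.unfolds hn) a h)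
  · rintro (h | h)
    · exact null_fwd h a
    · exact fwd hw a h

/-! ## integers free of divisors in a thin family -/

open Classical in
/-- the indicator of the integers which no `d i` divides -/
noncomputable def free (d : ℕ → ℕ) (n : ℕ) : ℝ := if ∀ i, ¬ d i ∣ n then 1 else 0

theorem fin_le {d : ℕ → ℕ} (hd : ∀ i, 0 < d i) (hs : Summable fun i => 1 / (d i : ℝ)) (N : ℕ) :
    {i : ℕ | d i ≤ N}.Finite := by
  have h1 := hs.tendsto_cofinite_zero
  have h2 : ∀ᶠ i in cofinite, 1 / (d i : ℝ) < 1 / ((N : ℝ) + 1) :=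
    h1.eventually_lt_const (by positivity)
  refine (Filter.eventually_cofinite.1 h2).subset fun i hi => ?_
  rw [Set.mem_ofPred_eq] at hi ⊢
  rw [not_lt]
  apply one_div_le_one_div_of_le (by exact_mod_cast hd i)
  have : (d i : ℝ) ≤ N := by exact_mod_cast hi
  linarith

open Classical in
theorem count_div (d : ℕ) (N : ℕ) :
    ∑ n ∈ Icc 1 N, (if d ∣ n then (1 : ℝ) else 0) ≤ N * (1 / (d : ℝ)) := by
  rw [← Finset.sum_filter, Finset.sum_const, nsmul_eq_mul, mul_one]
  have h1 : ((Icc 1 N).filter fun n => d ∣ n).card = N / d := Nat.Ioc_filter_dvd_card_eq_div N d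
  rw [h1]
  refine Nat.cast_div_le.trans ?_
  rw [mul_one_div]

open Classical in
/-- sums of indicators over finitely many divisors -/
theorem count_div_sum (d : ℕ → ℕ) (I : Finset ℕ) (N : ℕ) :
    ∑ n ∈ Icc 1 N, ∑ i ∈ I, (if d i ∣ n then (1 : ℝ) else 0) ≤ N * ∑ i ∈ I, 1 / (d i : ℝ) := by
  rw [Finset.sum_comm, Finset.mul_sum]
  exact Finset.sum_le_sum fun i _ => count_div (d i) N

open Classical in
theorem free_rap {d : ℕ → ℕ} (hd : ∀ i, 0 < d i) (hs : Summable fun i => 1 / (d i : ℝ)) :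
    RAP (free d) := by
  intro ε hε
  obtain ⟨F, hF⟩ := summable_iff_vanishing_norm.1 hs ε hε
  refine ⟨∏ i ∈ F, d i, Finset.prod_pos fun i _ => hd i,
    fun n => if ∀ i ∈ F, ¬ d i ∣ n then 1 else 0, fun n => ?_, ?_⟩
  · have : (∀ i ∈ F, ¬ d i ∣ n + ∏ i ∈ F, d i) ↔ (∀ i ∈ F, ¬ d i ∣ n) := by
      refine forall₂_congr fun i hi => not_congr ?_
      exact (Nat.dvd_add_iff_left (Finset.dvd_prod_of_mem d hi)).symm
    simp only [this]
  · refine Filter.Eventually.of_forall fun N => ?_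
    obtain ⟨I, hI⟩ : ∃ I : Finset ℕ, I = (fin_le hd hs N).toFinset \ F := ⟨_, rfl⟩
    have h1 : ∀ n ∈ Icc 1 N, |free d n - (if ∀ i ∈ F, ¬ d i ∣ n then (1 : ℝ) else 0)| ≤
        ∑ i ∈ I, (if d i ∣ n then (1 : ℝ) else 0) := by
      intro n hn
      rw [mem_Icc] at hn
      have hpos : 0 ≤ ∑ i ∈ I, (if d i ∣ n then (1 : ℝ) else 0) :=
        Finset.sum_nonneg fun i _ => by split_ifs <;> norm_num
      unfold free
      by_cases c1 : ∀ i ∈ F, ¬ d i ∣ n
      · by_cases c2 : ∀ i, ¬ d i ∣ n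
        · rw [if_pos c1, if_pos c2, sub_self, abs_zero]
          exact hpos
        · rw [if_pos c1, if_neg c2]
          push Not at c2
          obtain ⟨i, hi⟩ := c2
          have hiI : i ∈ I := by
            rw [hI, Finset.mem_sdiff, Set.Finite.mem_toFinset]
            exact ⟨(Nat.le_of_dvd (by omega) hi).trans hn.2, fun hiF => c1 i hiF hi⟩
          have := Finset.single_le_sum (f := fun i => if d i ∣ n then (1 : ℝ) else 0)
            (fun i _ => by split_ifs <;> norm_num) hiI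
          simp only [hi, if_true] at this
          simpa using this
      · have c2 : ¬ ∀ i, ¬ d i ∣ n := fun c => c1 fun i _ => c i
        rw [if_neg c1, if_neg c2, sub_self, abs_zero]
        exact hpos
    refine (Finset.sum_le_sum h1).trans ((count_div_sum d I N).trans ?_)
    have h2 := hF I (by rw [hI]; exact Finset.sdiff_disjoint)
    rw [Real.norm_eq_abs] at h2
    have h3 := (le_abs_self _).trans h2.le
    rw [mul_comm]
    exact mul_le_mul_of_nonneg_right h3 (Nat.cast_nonneg N)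

open Classical in
theorem free_not_null {d : ℕ → ℕ} (hd : ∀ i, 0 < d i) (hs : Summable fun i => 1 / (d i : ℝ))
    (h1 : ∑' i, 1 / (d i : ℝ) < 1) : ¬ Null (free d) := by
  intro hn
  obtain ⟨S, hS⟩ : ∃ S, S = ∑' i, 1 / (d i : ℝ) := ⟨_, rfl⟩
  rw [← hS] at h1
  have h2 : ∀ N : ℕ, 1 ≤ N → 1 - S ≤ (N : ℝ)⁻¹ * ∑ n ∈ Icc 1 N, |free d n| := by
    intro N hN
    have hN' : (0 : ℝ) < N := by exact_mod_cast hN
    obtain ⟨I, hI⟩ : ∃ I : Finset ℕ, I = (fin_le hd hs N).toFinset := ⟨_, rfl⟩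
    have h3 : ∀ n ∈ Icc 1 N, 1 - ∑ i ∈ I, (if d i ∣ n then (1 : ℝ) else 0) ≤ |free d n| := by
      intro n hn'
      rw [mem_Icc] at hn'
      have hpos : 0 ≤ ∑ i ∈ I, (if d i ∣ n then (1 : ℝ) else 0) :=
        Finset.sum_nonneg fun i _ => by split_ifs <;> norm_num
      unfold free
      by_cases c2 : ∀ i, ¬ d i ∣ n
      · rw [if_pos c2, abs_one]
        linarith
      · rw [if_neg c2, abs_zero]
        push Not at c2
        obtain ⟨i, hi⟩ := c2
        have hiI : i ∈ I := by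
          rw [hI, Set.Finite.mem_toFinset]
          exact (Nat.le_of_dvd (by omega) hi).trans hn'.2
        have := Finset.single_le_sum (f := fun i => if d i ∣ n then (1 : ℝ) else 0)
          (fun i _ => by split_ifs <;> norm_num) hiI
        simp only [hi, if_true] at this
        linarith
    have h4 := Finset.sum_le_sum h3
    rw [Finset.sum_sub_distrib, Finset.sum_const, Nat.card_Icc, nsmul_eq_mul, mul_one,
      Nat.add_sub_cancel] at h4
    have h5 := count_div_sum d I N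
    have h6 : ∑ i ∈ I, 1 / (d i : ℝ) ≤ S := by
      rw [hS]
      exact hs.sum_le_tsum _ fun i _ => by positivity
    have h7 : (N : ℝ) * ∑ i ∈ I, 1 / (d i : ℝ) ≤ N * S := mul_le_mul_of_nonneg_left h6 hN'.le
    rw [le_inv_mul_iff₀ hN']
    linarith
  have h3 := ge_of_tendsto hn (by
    filter_upwards [eventually_ge_atTop 1] with N hN
    exact h2 N hN)
  linarith

/-! ## squarefree numbers -/

theorem sq_partial (K : ℕ) : ∑ i ∈ range K, 1 / (((i + 2) ^ 2 : ℕ) : ℝ) ≤ 3 / 4 := by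
  have h : ∀ K : ℕ, ∑ i ∈ range (K + 1), 1 / (((i + 2) ^ 2 : ℕ) : ℝ) ≤
      3 / 4 - 1 / ((K : ℝ) + 2) := by
    intro K
    induction K with
    | zero => norm_num
    | succ K ih =>
      rw [Finset.sum_range_succ]
      have h1 : 1 / (((K + 1 + 2) ^ 2 : ℕ) : ℝ) ≤ 1 / ((K : ℝ) + 2) - 1 / ((K : ℝ) + 3) := by
        push_cast
        rw [div_sub_div _ _ (by positivity) (by positivity), div_le_div_iff₀ (by positivity)
          (by positivity)]
        nlinarith [(Nat.cast_nonneg K : (0 : ℝ) ≤ K)]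
      have h2 : (((K + 1 : ℕ) : ℝ) + 2) = (K : ℝ) + 3 := by push_cast; ring
      rw [h2]
      linarith
  rcases Nat.eq_zero_or_pos K with h0 | h0
  · subst h0; norm_num
  · obtain ⟨m, rfl⟩ : ∃ m, K = m + 1 := ⟨K - 1, by omega⟩
    refine (h m).trans ?_
    have : (0 : ℝ) ≤ 1 / ((m : ℝ) + 2) := by positivity
    linarith

theorem sq_summable : Summable fun i : ℕ => 1 / (((i + 2) ^ 2 : ℕ) : ℝ) :=
  summable_of_sum_range_le (fun i => by positivity) sq_partial

theorem sq_tsum : ∑' i : ℕ, 1 / (((i + 2) ^ 2 : ℕ) : ℝ) < 1 :=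
  (Real.tsum_le_of_sum_range_le (fun i => by positivity) sq_partial).trans_lt (by norm_num)

theorem free_sq {n : ℕ} (hn : 1 ≤ n) : (∀ i : ℕ, ¬ (i + 2) ^ 2 ∣ n) ↔ Squarefree n := by
  constructor
  · intro h x hx
    rcases Nat.lt_or_ge x 2 with h1 | h1
    · interval_cases x
      · simp at hx; omega
      · exact isUnit_one
    · exfalso
      apply h (x - 2)
      rw [Nat.sub_add_cancel h1, sq]
      exact hx
  · intro h i hi
    have := h (i + 2) (by rw [← sq]; exact hi)
    rw [Nat.isUnit_iff] at this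
    omega

end Pool.Agent.X159.PE
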