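import Pool.Agent.X159.PE.FBL
import Pool.Agent.X159.PE.Main

/-!
# Product weights on boxes
-/

set_option autoImplicit false

namespace Pool.Agent.X159.PE

open Filter Topology Finset

theorem RAP.onRange {w : ℕ → ℝ} (hw : RAP w) (ε : ℝ) (hε : 0 < ε) : ∃ q : ℕ, 0 < q ∧
    ∃ p : ℕ → ℝ, (∀ n, p (n + q) = p n) ∧
      ∀ᶠ N : ℕ in atTop, ∑ n ∈ range N, |w n - p n| ≤ ε * N := by
  obtain ⟨q, hq, p, hp, h⟩ := hw (ε / 2) (by linarith)
  refine ⟨q, hq, p, hp, ?_⟩
  have h3 : ∀ᶠ N : ℕ in atTop, |w 0 - p 0| ≤ ε / 2 * N := by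
    have ht : Tendsto (fun N : ℕ => ε / 2 * (N : ℝ)) atTop atTop :=
      Tendsto.const_mul_atTop (by linarith) tendsto_natCast_atTop_atTop
    exact ht.eventually_ge_atTop _
  filter_upwards [h, h3] with N a1 a2
  have e := sum_Icc_eq (fun n => |w n - p n|) N
  have e5 : ∑ n ∈ range N, |w n - p n| ≤ ∑ n ∈ range (N + 1), |w n - p n| :=
    Finset.sum_le_sum_of_subset_of_nonneg
      (Finset.range_subset_range.2 (Nat.le_succ _)) fun _ _ _ => abs_nonneg _
  linarith

/-- truncation to `[-1, 1]` -/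
noncomputable def clip (x : ℝ) : ℝ := max (-1) (min 1 x)

theorem clip_abs (x : ℝ) : |clip x| ≤ 1 := by
  rw [abs_le]
  exact ⟨le_max_left _ _, max_le (by norm_num) (min_le_left _ _)⟩

theorem clip_sub {v x : ℝ} (hv : |v| ≤ 1) : |v - clip x| ≤ |v - x| := by
  have h := abs_le.1 hv
  unfold clip
  rcases le_total x (-1) with h1 | h1
  · rw [min_eq_right (by linarith), max_eq_left h1, abs_of_nonneg (by linarith),
      abs_of_nonneg (by linarith)]
    linarith
  · rcases le_total x 1 with h2 | h2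
    · rw [min_eq_right h2, max_eq_right h1]
    · rw [min_eq_left h2, max_eq_right (by norm_num), abs_of_nonpos (by linarith),
        abs_of_nonpos (by linarith)]
      linarith

theorem prod_diff {ι : Type} (s : Finset ι) (a b : ι → ℝ) (ha : ∀ i, |a i| ≤ 1)
    (hb : ∀ i, |b i| ≤ 1) : |∏ i ∈ s, a i - ∏ i ∈ s, b i| ≤ ∑ i ∈ s, |a i - b i| := by
  classical
  induction s using Finset.induction_on with
  | empty => simp
  | insert i s hi ih =>
    rw [Finset.prod_insert hi, Finset.prod_insert hi, Finset.sum_insert hi]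
    have e : a i * ∏ i ∈ s, a i - b i * ∏ i ∈ s, b i =
        (a i - b i) * ∏ i ∈ s, a i + b i * (∏ i ∈ s, a i - ∏ i ∈ s, b i) := by ring
    rw [e]
    refine (abs_add_le _ _).trans (add_le_add ?_ ?_)
    · rw [abs_mul, Finset.abs_prod]
      exact mul_le_of_le_one_right (abs_nonneg _)
        (Finset.prod_le_one (fun _ _ => abs_nonneg _) fun i _ => ha i)
    · rw [abs_mul]
      exact (mul_le_of_le_one_left (abs_nonneg _) (hb i)).trans ih

variable {k : ℕ}

theorem coord_sum {g : ℕ → ℝ} (hg : ∀ n, 0 ≤ g n) {δ : ℝ} {M : Fin k → ℕ} (j : Fin k)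
    (h : ∑ n ∈ range (M j), g n ≤ δ * M j) :
    ∑ m ∈ box M, g (m j) ≤ δ * ∏ l, (M l : ℝ) := by
  classical
  have e1 : ∀ m : Fin k → ℕ, g (m j) = ∏ l, (if l = j then g (m l) else 1) := by
    intro m
    rw [Finset.prod_ite_eq' Finset.univ j fun l => g (m l)]
    simp
  have e2 : ∑ m ∈ box M, g (m j) = ∏ l, ∑ n ∈ range (M l), (if l = j then g n else 1) := by
    rw [Finset.prod_univ_sum]
    exact Finset.sum_congr rfl fun m _ => e1 m
  have e3 : ∏ l, ((if l = j then δ else 1) * (M l : ℝ)) = δ * ∏ l, (M l : ℝ) := by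
    rw [Finset.prod_mul_distrib, Finset.prod_ite_eq' Finset.univ j fun _ => δ]
    simp
  rw [e2, ← e3]
  refine Finset.prod_le_prod (fun l _ => Finset.sum_nonneg fun n _ => ?_) fun l _ => ?_
  · split_ifs
    · exact hg n
    · norm_num
  · by_cases hl : l = j
    · subst hl
      simpa using h
    · simp [hl]

theorem rap_prod {v : ℕ → ℝ} (hv : RAP v) (h1 : ∀ n, |v n| ≤ 1) :
    RAPBox (fun m : Fin k → ℕ => ∏ j, v (m j)) := by
  intro ε hε
  obtain ⟨q, hq, p, hp, hN⟩ := hv.onRange (ε / ((k : ℝ) + 1)) (by positivity)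
  refine ⟨q, hq, fun m => ∏ j, clip (p (m j)), fun m r => ?_, ?_⟩
  · refine Finset.prod_congr rfl fun j _ => ?_
    rw [per_mul hp]
  · have h2 : ∀ᶠ M : Fin k → ℕ in atTop, ∀ j, ∑ n ∈ range (M j), |v n - p n| ≤
        ε / ((k : ℝ) + 1) * (M j : ℕ) := by
      rw [eventually_all]
      exact fun j => (tendsto_coord j).eventually hN
    filter_upwards [h2] with M hM
    calc ∑ m ∈ box M, |∏ j, v (m j) - ∏ j, clip (p (m j))|
        ≤ ∑ m ∈ box M, ∑ j, |v (m j) - clip (p (m j))| :=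
          Finset.sum_le_sum fun m _ => prod_diff _ _ _ (fun j => h1 _) fun j => clip_abs _
      _ = ∑ j, ∑ m ∈ box M, |v (m j) - clip (p (m j))| := Finset.sum_comm
      _ ≤ ∑ _j : Fin k, ε / ((k : ℝ) + 1) * ∏ l, (M l : ℝ) := by
          refine Finset.sum_le_sum fun j _ => ?_
          refine coord_sum (g := fun n => |v n - clip (p n)|) (fun n => abs_nonneg _) j ?_
          exact (Finset.sum_le_sum fun n _ => clip_sub (h1 n)).trans (hM j)
      _ = (k : ℝ) / ((k : ℝ) + 1) * (ε * ∏ l, (M l : ℝ)) := by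
          rw [Finset.sum_const, Finset.card_univ, Fintype.card_fin, nsmul_eq_mul]
          ring
      _ ≤ 1 * (ε * ∏ l, (M l : ℝ)) := by
          apply mul_le_mul_of_nonneg_right _ (by positivity)
          rw [div_le_one (by positivity)]
          linarith
      _ = ε * ∏ l, (M l : ℝ) := one_mul _

theorem mean_prod {v : ℕ → ℝ} {c : ℝ} (hc : Tendsto (avgR v) atTop (𝓝 c)) :
    Tendsto (avgB fun m : Fin k → ℕ => ∏ j, v (m j)) atTop (𝓝 (c ^ k)) := by
  have h2 := tendsto_finsetProd (Finset.univ : Finset (Fin k)) fun j _ =>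
    hc.comp (tendsto_coord j)
  rw [Finset.prod_const, Finset.card_univ, Fintype.card_fin] at h2
  refine h2.congr fun M => ?_
  show ∏ j, ((M j : ℝ)⁻¹ * ∑ n ∈ range (M j), v n) =
    (∏ j, (M j : ℝ))⁻¹ * ∑ m ∈ box M, ∏ j, v (m j)
  rw [Finset.prod_mul_distrib, Finset.prod_inv_distrib, Finset.prod_univ_sum]
  rfl

/-- nonnegative rationally almost periodic weights which are not null have a nonzero mean -/
theorem RAP.mean {w : ℕ → ℝ} (hw : RAP w) (h0 : ∀ n, 0 ≤ w n) (hn : ¬ Null w) :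
    ∃ c : ℝ, c ≠ 0 ∧ Tendsto (avgR w) atTop (𝓝 c) := by
  have h1 : Cv (avgI fun n => w n * 1) := by
    refine forward (B := 1) hw (fun n => by simp) fun q _ r _ => ⟨1, ?_⟩
    refine tendsto_const_nhds.congr' ?_
    filter_upwards [eventually_ge_atTop 1] with N hN
    unfold avgI
    have : (N : ℝ) ≠ 0 := by exact_mod_cast (by omega : N ≠ 0)
    rw [Finset.sum_const, Nat.card_Icc, Nat.add_sub_cancel, nsmul_eq_mul, mul_one,
      inv_mul_cancel₀ this]
  have h2 : Cv (avgI w) := by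
    have e : (fun n => w n * 1) = w := funext fun n => mul_one _
    rwa [e] at h1
  have h2' := h2
  rw [Cv_avg_iff] at h2
  obtain ⟨c, hc⟩ := h2
  obtain ⟨c', hc'⟩ := h2'
  refine ⟨c, fun h => ?_, hc⟩
  -- both limits agree
  have hcc : c' = c := by
    have h3 := (tendsto_add_atTop_iff_nat 1).2 hc
    have t1 : Tendsto (fun n : ℕ => (n : ℝ)⁻¹) atTop (𝓝 0) :=
      tendsto_inv_atTop_zero.comp tendsto_natCast_atTop_atTop
    have e : ∀ N : ℕ, 1 ≤ N → avgI w N =
        (1 + (N : ℝ)⁻¹) * avgR w (N + 1) - w 0 * (N : ℝ)⁻¹ := by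
      intro N h
      unfold avgR avgI
      rw [sum_Icc_eq]
      push_cast
      have : (N : ℝ) ≠ 0 := by exact_mod_cast (by omega : N ≠ 0)
      have h2 : (N : ℝ) + 1 ≠ 0 := by positivity
      field_simp
    have h1 := (((t1.const_add 1).mul h3)).sub (t1.const_mul (w 0))
    rw [add_zero, one_mul, mul_zero, sub_zero] at h1
    refine tendsto_nhds_unique hc' (h1.congr' ?_)
    filter_upwards [eventually_ge_atTop 1] with N hN
    exact (e N hN).symm
  apply hn
  rw [hcc, h] at hc'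
  refine hc'.congr fun N => ?_
  unfold avgI
  congr 1
  exact Finset.sum_congr rfl fun n _ => (abs_of_nonneg (h0 n)).symm

open Classical in
/-- the indicator of the points all of whose coordinates are squarefree -/
noncomputable def sqInd (m : Fin k → ℕ) : ℝ := if ∀ j, Squarefree (m j) then 1 else 0

theorem sqInd_eq (m : Fin k → ℕ) : sqInd m = ∏ j, free (fun i => (i + 2) ^ 2) (m j) := by
  classical
  have h0 : ∀ n : ℕ, (∀ i : ℕ, ¬ (i + 2) ^ 2 ∣ n) ↔ Squarefree n := by
    intro n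
    rcases Nat.eq_zero_or_pos n with h | h
    · subst h
      constructor
      · intro h
        exact absurd (dvd_zero _) (h 0)
      · intro h
        exact absurd h not_squarefree_zero
    · exact free_sq h
  unfold sqInd free
  simp only [h0]
  by_cases h : ∀ j, Squarefree (m j)
  · rw [if_pos h, Finset.prod_eq_one fun j _ => if_pos (h j)]
  · rw [if_neg h]
    push Not at h
    obtain ⟨j, hj⟩ := h
    exact (Finset.prod_eq_zero (Finset.mem_univ j) (if_neg hj)).symm

theorem free_nonneg (d : ℕ → ℕ) (n : ℕ) : 0 ≤ free d n := by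
  unfold free
  split_ifs <;> norm_num

theorem free_le (d : ℕ → ℕ) (n : ℕ) : |free d n| ≤ 1 := by
  unfold free
  split_ifs <;> norm_num

theorem sqInd_le (m : Fin k → ℕ) : |sqInd m| ≤ 1 := by
  unfold sqInd
  split_ifs <;> norm_num

theorem sqInd_facts : RAPBox (sqInd (k := k)) ∧
    ∃ c : ℝ, c ≠ 0 ∧ Tendsto (avgB (sqInd (k := k))) atTop (𝓝 c) := by
  have e : (sqInd (k := k)) = fun m => ∏ j, free (fun i => (i + 2) ^ 2) (m j) :=
    funext sqInd_eq
  have hd : ∀ i : ℕ, 0 < (i + 2) ^ 2 := fun i => by positivity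
  have hr := free_rap hd sq_summable
  obtain ⟨c, hc, hm⟩ := hr.mean (free_nonneg _) (free_not_null hd sq_summable sq_tsum)
  rw [e]
  exact ⟨rap_prod hr (free_le _), c ^ k, pow_ne_zero _ hc, mean_prod hm⟩

end Pool.Agent.X159.PE
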