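import Pool.Agent.X159.PE.Box

/-!
# The Furstenberg–Bergelson–Leibman averages with weights
-/

set_option autoImplicit false

namespace Pool.Agent.X159.PE

open MeasureTheory Filter Topology Finset

/-- the statement of the conjecture for functions on `ℕ ^ k`, with the weight `w`: the averages over
the boxes with sides `M_1, …, M_k` of `w(m) ∏_j f_j(S_j(m) x)` converge almost everywhere as all sides
tend to infinity -/
def FBL {k : ℕ} (w : (Fin k → ℕ) → ℝ) : Prop :=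
  ∀ (d n : ℕ) (X : Type) [MeasurableSpace X] (μ : MeasureTheory.Measure X)
    [MeasureTheory.IsProbabilityMeasure μ] (T : Fin d → Equiv.Perm X),
    (∀ i, Measurable (T i) ∧ Measurable (T i).symm ∧
      MeasureTheory.MeasurePreserving (T i) μ μ) →
    Group.IsNilpotent ↥(Subgroup.closure (Set.range T)) →
    ∀ (P : Fin d → Fin n → MvPolynomial (Fin k) ℤ) (f : Fin n → X → ℝ),
    (∀ j, MeasureTheory.MemLp (f j) ⊤ μ) →
    ∀ᵐ x ∂μ, ∃ L : ℝ, Filter.Tendsto
      (fun M : Fin k → ℕ => (∏ j, (M j : ℝ))⁻¹ *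
        ∑ m ∈ Fintype.piFinset (fun j => Finset.range (M j)),
          w m * ∏ j : Fin n, f j ((List.ofFn (fun i : Fin d =>
            T i ^ (MvPolynomial.eval (fun l => ((m l : ℕ) : ℤ)) (P i j)))).prod x))
      Filter.atTop (nhds L)

variable {X : Type} [MeasurableSpace X] {μ : Measure X}

/-- the group of invertible measure preserving maps -/
def mpGroup (μ : Measure X) : Subgroup (Equiv.Perm X) where
  carrier := {S | MeasurePreserving S μ μ ∧ MeasurePreserving S.symm μ μ}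
  mul_mem' := by
    rintro S S' ⟨h1, h2⟩ ⟨h3, h4⟩
    exact ⟨h1.comp h3, h4.comp h2⟩
  one_mem' := ⟨MeasurePreserving.id μ, MeasurePreserving.id μ⟩
  inv_mem' := by
    rintro S ⟨h1, h2⟩
    exact ⟨h2, h1⟩

theorem mem_mpGroup {T : Equiv.Perm X} (h1 : Measurable T) (h2 : Measurable T.symm)
    (h3 : MeasurePreserving T μ μ) : T ∈ mpGroup μ := by
  refine ⟨h3, ?_⟩
  let e : X ≃ᵐ X := ⟨T, h1, h2⟩
  have h4 : MeasurePreserving e μ μ := h3
  exact h4.symm e

theorem bddF {f : X → ℝ} (hf : MemLp f ⊤ μ) : ∃ C : ℝ, 0 ≤ C ∧ ∀ᵐ x ∂μ, |f x| ≤ C := by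
  refine ⟨(eLpNormEssSup f μ).toReal, ENNReal.toReal_nonneg, ?_⟩
  have hfin : eLpNormEssSup f μ ≠ ⊤ := by
    have := hf.2
    rw [eLpNorm_exponent_top] at this
    exact this.ne
  filter_upwards [ae_le_eLpNormEssSup (f := f) (μ := μ)] with x hx
  rw [← Real.norm_eq_abs, ← toReal_enorm]
  exact ENNReal.toReal_mono hfin hx

/-- the product at the integer point `z` -/
noncomputable def U {k d n : ℕ} (T : Fin d → Equiv.Perm X)
    (P : Fin d → Fin n → MvPolynomial (Fin k) ℤ) (f : Fin n → X → ℝ) (x : X) (z : Fin k → ℤ) : ℝ :=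
  ∏ j : Fin n, f j ((List.ofFn (fun i : Fin d => T i ^ (MvPolynomial.eval z (P i j)))).prod x)

theorem U_bdd {k d n : ℕ} {T : Fin d → Equiv.Perm X} (hT : ∀ i, T i ∈ mpGroup μ)
    (P : Fin d → Fin n → MvPolynomial (Fin k) ℤ) {f : Fin n → X → ℝ}
    (hf : ∀ j, MemLp (f j) ⊤ μ) : ∃ B : ℝ, ∀ᵐ x ∂μ, ∀ z : Fin k → ℤ, |U T P f x z| ≤ B := by
  have h2 : ∀ j, ∃ C : ℝ, 0 ≤ C ∧ ∀ᵐ x ∂μ, |f j x| ≤ C := fun j => bddF (hf j)
  choose D hD h3 using h2
  refine ⟨∏ j, D j, ?_⟩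
  have h5 : ∀ᵐ x ∂μ, ∀ (z : Fin k → ℤ) (j : Fin n),
      |f j ((List.ofFn (fun i : Fin d => T i ^ (MvPolynomial.eval z (P i j)))).prod x)| ≤ D j := by
    rw [ae_all_iff]
    intro z
    rw [ae_all_iff]
    intro j
    have h6 : (List.ofFn (fun i : Fin d => T i ^ (MvPolynomial.eval z (P i j)))).prod ∈
        mpGroup μ := by
      refine Subgroup.list_prod_mem _ fun S hS => ?_
      rw [List.mem_ofFn] at hS
      obtain ⟨i, rfl⟩ := hS
      exact Subgroup.zpow_mem _ (hT i) _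
    exact h6.1.quasiMeasurePreserving.ae (h3 j)
  filter_upwards [h5] with x a
  intro z
  unfold U
  rw [Finset.abs_prod]
  exact Finset.prod_le_prod (fun j _ => abs_nonneg _) fun j _ => a z j

theorem eval_subst {k : ℕ} (g : Fin k → MvPolynomial (Fin k) ℤ) (z : Fin k → ℤ)
    (p : MvPolynomial (Fin k) ℤ) :
    MvPolynomial.eval z (MvPolynomial.aeval g p) =
      MvPolynomial.eval (fun l => MvPolynomial.eval z (g l)) p := by
  induction p using MvPolynomial.induction_on with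
  | C a => simp
  | add p q hp hq => rw [map_add, map_add, hp, hq, map_add]
  | mul_X p i hp =>
    rw [map_mul, map_mul, hp, map_mul, MvPolynomial.aeval_X, MvPolynomial.eval_X]

/-- the polynomials `P(q X + s)` -/
noncomputable def subst {k d n : ℕ} (q : ℤ) (s : Fin k → ℤ)
    (P : Fin d → Fin n → MvPolynomial (Fin k) ℤ) : Fin d → Fin n → MvPolynomial (Fin k) ℤ :=
  fun i j => MvPolynomial.aeval
    (fun l => MvPolynomial.C q * MvPolynomial.X l + MvPolynomial.C (s l)) (P i j)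

theorem U_subst {k d n : ℕ} (T : Fin d → Equiv.Perm X) (q : ℤ) (s : Fin k → ℤ)
    (P : Fin d → Fin n → MvPolynomial (Fin k) ℤ) (f : Fin n → X → ℝ) (x : X) (z : Fin k → ℤ) :
    U T (subst q s P) f x z = U T P f x (fun l => q * z l + s l) := by
  have e : ∀ p : MvPolynomial (Fin k) ℤ, MvPolynomial.eval z (MvPolynomial.aeval
      (fun l => MvPolynomial.C q * MvPolynomial.X l + MvPolynomial.C (s l)) p) =
      MvPolynomial.eval (fun l => q * z l + s l) p := by
    intro p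
    rw [eval_subst]
    simp
  unfold U subst
  simp only [e]

/-- the conjecture, read off -/
theorem FBL.cv {k : ℕ} {w : (Fin k → ℕ) → ℝ} (h : FBL w) [IsProbabilityMeasure μ] {d n : ℕ}
    {T : Fin d → Equiv.Perm X}
    (hT : ∀ i, Measurable (T i) ∧ Measurable (T i).symm ∧ MeasurePreserving (T i) μ μ)
    (hN : Group.IsNilpotent ↥(Subgroup.closure (Set.range T)))
    (P : Fin d → Fin n → MvPolynomial (Fin k) ℤ) {f : Fin n → X → ℝ}
    (hf : ∀ j, MemLp (f j) ⊤ μ) (q : ℤ) (s : Fin k → ℤ) :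
    ∀ᵐ x ∂μ, CvB (avgB fun m => w m * U T P f x (fun l => q * ((m l : ℕ) : ℤ) + s l)) := by
  filter_upwards [h d n X μ T hT hN (subst q s P) f hf] with x hx
  obtain ⟨L, hL⟩ := hx
  refine ⟨L, hL.congr fun M => ?_⟩
  unfold avgB
  congr 1
  refine Finset.sum_congr rfl fun m _ => ?_
  show _ = w m * U T P f x (fun l => q * ((m l : ℕ) : ℤ) + s l)
  rw [← U_subst]
  rfl

theorem fbl_fwd {k : ℕ} {w : (Fin k → ℕ) → ℝ} (hw : RAPBox w)
    (h : FBL (fun _ : Fin k → ℕ => 1)) : FBL w := by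
  intro d n X _ μ _ T hT hN P f hf
  obtain ⟨B, hB⟩ := U_bdd (fun i => mem_mpGroup (hT i).1 (hT i).2.1 (hT i).2.2) P hf
  have h1 : ∀ᵐ x ∂μ, ∀ (q : ℕ) (r : Fin k → ℕ), CvB (avgB fun m : Fin k → ℕ =>
      (1 : ℝ) * U T P f x (fun l => (q : ℤ) * ((m l : ℕ) : ℤ) + ((r l : ℕ) : ℤ))) := by
    rw [ae_all_iff]
    intro q
    rw [ae_all_iff]
    intro r
    exact h.cv hT hN P hf q (fun l => ((r l : ℕ) : ℤ))
  filter_upwards [hB, h1] with x a1 a2
  have h3 := forwardB (u := fun m : Fin k → ℕ => U T P f x (fun l => ((m l : ℕ) : ℤ))) hw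
    (fun m => a1 _) (fun q hq r => by
      obtain ⟨L, hL⟩ := a2 q r
      refine ⟨L, hL.congr fun M => ?_⟩
      unfold avgB
      congr 1
      refine Finset.sum_congr rfl fun m _ => ?_
      show (1 : ℝ) * U T P f x (fun l => (q : ℤ) * ((m l : ℕ) : ℤ) + ((r l : ℕ) : ℤ)) =
        U T P f x (fun l => ((q * m l + r l : ℕ) : ℤ))
      rw [one_mul]
      congr 1)
  exact h3

theorem fbl_bwd {k : ℕ} {w : (Fin k → ℕ) → ℝ} {C : ℝ} (hC : ∀ m, |w m| ≤ C) (hw : UnfoldsBox w)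
    (h : FBL w) : FBL (fun _ : Fin k → ℕ => 1) := by
  intro d n X _ μ _ T hT hN P f hf
  obtain ⟨B, hB⟩ := U_bdd (fun i => mem_mpGroup (hT i).1 (hT i).2.1 (hT i).2.2) P hf
  have h1 : ∀ᵐ x ∂μ, ∀ (r : Fin k → ℕ), CvB (avgB fun m : Fin k → ℕ =>
      w m * U T P f x (fun l => (1 : ℤ) * ((m l : ℕ) : ℤ) + (-((r l : ℕ) : ℤ)))) := by
    rw [ae_all_iff]
    intro r
    exact h.cv hT hN P hf 1 (fun l => -((r l : ℕ) : ℤ))
  have hC0 : 0 ≤ C := (abs_nonneg _).trans (hC 0)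
  filter_upwards [hB, h1] with x a1 a2
  have h3 := backwardB (u := fun m : Fin k → ℕ => U T P f x (fun l => ((m l : ℕ) : ℤ))) hw
    (fun m => a1 _) (fun r => by
      have h4 := CvB_shift (B := C * B) (fun m => by
        rw [abs_mul]
        exact mul_le_mul (hC m) (a1 _) (abs_nonneg _) hC0) r (a2 r)
      obtain ⟨L, hL⟩ := h4
      refine ⟨L, hL.congr fun M => ?_⟩
      unfold avgB
      congr 1
      refine Finset.sum_congr rfl fun m _ => ?_
      show w (m + r) * U T P f x (fun l => (1 : ℤ) * (((m + r) l : ℕ) : ℤ) +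
        (-((r l : ℕ) : ℤ))) = w (m + r) * U T P f x (fun l => ((m l : ℕ) : ℤ))
      congr 2
      funext l
      rw [Pi.add_apply]
      push_cast
      ring)
  obtain ⟨L, hL⟩ := h3
  refine ⟨L, hL.congr fun M => ?_⟩
  unfold avgB
  congr 1
  refine Finset.sum_congr rfl fun m _ => ?_
  show _ = (1 : ℝ) * U T P f x (fun l => ((m l : ℕ) : ℤ))
  rw [one_mul]

end Pool.Agent.X159.PE
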