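import Pool.Agent.X159.PE.Conv
import Pool.Agent.X159.PE.FBL
import Pool.Agent.X159.WM.Osc

/-!
# Nilpotent polynomial averages with weights `1 * g`
-/

set_option autoImplicit false

namespace Pool.Agent.X159.PE.Conv

open MeasureTheory Filter Topology Finset ArithmeticFunction
open scoped ENNReal

/-- the statement of the conjecture with the weight `w(|n|)` -/
def NilP (w : ℕ → ℝ) : Prop :=
  ∀ (X : Type) [MeasurableSpace X] (μ : Measure X) [IsProbabilityMeasure μ]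
    (d m : ℕ) (T : Fin d → Equiv.Perm X),
    (∀ i, Measurable ⇑(T i).symm) →
    (∀ i, MeasurePreserving (⇑(T i)) μ μ) →
    Group.IsNilpotent (Subgroup.closure (Set.range T)) →
    ∀ (P : Fin d → Fin m → Polynomial ℤ), (∀ i j, (P i j).eval 0 = 0) →
    ∀ (f : Fin m → X → ℂ), (∀ j, MemLp (f j) ∞ μ) →
    ∀ᵐ x ∂μ, ∃ L : ℂ, Filter.Tendsto
      (fun N : ℕ => ((2 * N + 1 : ℕ) : ℂ)⁻¹ *
        ∑ n ∈ Finset.Icc (-(N : ℤ)) (N : ℤ),
          (w n.natAbs : ℂ) *
            ∏ j : Fin m, f j ((List.ofFn fun i : Fin d => T i ^ (P i j).eval n).prod x))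
      Filter.atTop (nhds L)

variable {X : Type} [MeasurableSpace X] {μ : Measure X}

/-- the product at the integer `n` -/
noncomputable def u {d m : ℕ} (T : Fin d → Equiv.Perm X) (P : Fin d → Fin m → Polynomial ℤ)
    (f : Fin m → X → ℂ) (x : X) (n : ℤ) : ℂ :=
  ∏ j : Fin m, f j ((List.ofFn fun i : Fin d => T i ^ (P i j).eval n).prod x)

theorem bddC {f : X → ℂ} (hf : MemLp f ⊤ μ) : ∃ C : ℝ, 0 ≤ C ∧ ∀ᵐ x ∂μ, ‖f x‖ ≤ C := by
  refine ⟨(eLpNormEssSup f μ).toReal, ENNReal.toReal_nonneg, ?_⟩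
  have hfin : eLpNormEssSup f μ ≠ ⊤ := by
    have := hf.2
    rw [eLpNorm_exponent_top] at this
    exact this.ne
  filter_upwards [ae_le_eLpNormEssSup (f := f) (μ := μ)] with x hx
  rw [← toReal_enorm]
  exact ENNReal.toReal_mono hfin hx

theorem u_bdd {d m : ℕ} {T : Fin d → Equiv.Perm X} (hT : ∀ i, T i ∈ mpGroup μ)
    (P : Fin d → Fin m → Polynomial ℤ) {f : Fin m → X → ℂ}
    (hf : ∀ j, MemLp (f j) ⊤ μ) : ∃ B : ℝ, ∀ᵐ x ∂μ, ∀ z : ℤ, ‖u T P f x z‖ ≤ B := by
  have h2 : ∀ j, ∃ C : ℝ, 0 ≤ C ∧ ∀ᵐ x ∂μ, ‖f j x‖ ≤ C := fun j => bddC (hf j)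
  choose D hD h3 using h2
  refine ⟨∏ j, D j, ?_⟩
  have h5 : ∀ᵐ x ∂μ, ∀ (z : ℤ) (j : Fin m),
      ‖f j ((List.ofFn (fun i : Fin d => T i ^ ((P i j).eval z))).prod x)‖ ≤ D j := by
    rw [ae_all_iff]
    intro z
    rw [ae_all_iff]
    intro j
    have h6 : (List.ofFn (fun i : Fin d => T i ^ ((P i j).eval z))).prod ∈ mpGroup μ := by
      refine Subgroup.list_prod_mem _ fun S hS => ?_
      rw [List.mem_ofFn] at hS
      obtain ⟨i, rfl⟩ := hS
      exact Subgroup.zpow_mem _ (hT i) _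
    exact h6.1.quasiMeasurePreserving.ae (h3 j)
  filter_upwards [h5] with x a
  intro z
  unfold u
  rw [norm_prod]
  exact Finset.prod_le_prod (fun j _ => norm_nonneg _) fun j _ => a z j

/-- the conjecture, read off for the polynomials `P(q X)` -/
theorem NilP.cv {w : ℕ → ℝ} (h : NilP w) [IsProbabilityMeasure μ] {d m : ℕ}
    {T : Fin d → Equiv.Perm X} (hs : ∀ i, Measurable ⇑(T i).symm)
    (hT : ∀ i, MeasurePreserving (⇑(T i)) μ μ)
    (hN : Group.IsNilpotent (Subgroup.closure (Set.range T)))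
    (P : Fin d → Fin m → Polynomial ℤ) (hP : ∀ i j, (P i j).eval 0 = 0) {f : Fin m → X → ℂ}
    (hf : ∀ j, MemLp (f j) ∞ μ) (q : ℤ) :
    ∀ᵐ x ∂μ, CvC (avgC fun k : ℕ => (w k : ℂ) * (u T P f x (q * (k : ℤ)) +
      u T P f x (q * -(k : ℤ)))) := by
  have h1 := h X μ d m T hs hT hN (fun i j => (P i j).comp (Polynomial.C q * Polynomial.X))
    (fun i j => by simp [Polynomial.eval_comp, hP i j]) f hf
  filter_upwards [h1] with x hx
  have h2 : CvC (avg2 fun n : ℤ => (w n.natAbs : ℂ) * u T P f x (q * n)) := by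
    obtain ⟨L, hL⟩ := hx
    refine ⟨L, hL.congr fun N => ?_⟩
    unfold avg2
    congr 1
    refine Finset.sum_congr rfl fun n _ => ?_
    unfold u
    simp only [Polynomial.eval_comp, Polynomial.eval_mul, Polynomial.eval_C, Polynomial.eval_X]
  obtain ⟨L, hL⟩ := (two_iff _).1 h2
  refine ⟨L, hL.congr fun N => ?_⟩
  unfold avgC
  congr 1
  refine Finset.sum_congr rfl fun k _ => ?_
  beta_reduce
  rw [Int.natAbs_neg, Int.natAbs_natCast]
  ring

/-- from one-sided averages back to the statement -/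
theorem back {w : ℕ → ℝ} {v : ℤ → ℂ}
    (h : CvC (avgC fun k : ℕ => (w k : ℂ) * (v (k : ℤ) + v (-(k : ℤ))))) :
    CvC (avg2 fun n : ℤ => (w n.natAbs : ℂ) * v n) := by
  rw [two_iff]
  obtain ⟨L, hL⟩ := h
  refine ⟨L, hL.congr fun N => ?_⟩
  unfold avgC
  congr 1
  refine Finset.sum_congr rfl fun k _ => ?_
  beta_reduce
  rw [Int.natAbs_neg, Int.natAbs_natCast]
  ring

/-- `ζ` as a real arithmetic function -/
noncomputable def one : ArithmeticFunction ℝ := ((ArithmeticFunction.zeta : ArithmeticFunction ℕ) :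
  ArithmeticFunction ℝ)

theorem one_apply {n : ℕ} (hn : n ≠ 0) : one n = 1 := by
  unfold one
  rw [ArithmeticFunction.natCoe_apply, ArithmeticFunction.zeta_apply_ne hn]
  simp

/-- `∑ |g(d)| / d` converges -/
def Summ (g : ArithmeticFunction ℝ) : Prop := Summable fun d : ℕ => |g d| / (d : ℝ)

theorem pair_eq (v : ℤ → ℂ) {n : ℕ} {x : ℕ × ℕ} (hx : x ∈ n.divisorsAntidiagonal) :
    v ((x.1 : ℤ) * (x.2 : ℤ)) + v ((x.1 : ℤ) * -(x.2 : ℤ)) = v (n : ℤ) + v (-(n : ℤ)) := by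
  rw [Nat.mem_divisorsAntidiagonal] at hx
  rw [← hx.1]
  push_cast
  rw [mul_neg]

theorem nil_fwd {g : ArithmeticFunction ℝ} (hg : Summ g) (h : NilP (fun _ => 1)) :
    NilP (fun n => (g * one) n) := by
  intro X _ μ _ d m T hs hT hN P hP f hf
  obtain ⟨B, hB⟩ := u_bdd (fun i => mem_mpGroup (hT i).measurable (hs i) (hT i)) P hf
  have h1 : ∀ᵐ x ∂μ, ∀ q : ℕ, CvC (avgC fun k : ℕ => ((1 : ℝ) : ℂ) *
      (u T P f x ((q : ℤ) * (k : ℤ)) + u T P f x ((q : ℤ) * -(k : ℤ)))) := by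
    rw [ae_all_iff]
    exact fun q => h.cv hs hT hN P hP hf q
  filter_upwards [hB, h1] with x a1 a2
  have hB0 : 0 ≤ B := (norm_nonneg _).trans (a1 0)
  have ht := tannery (h := fun n => g n) hg
    (V := fun q k => u T P f x ((q : ℤ) * (k : ℤ)) + u T P f x ((q : ℤ) * -(k : ℤ)))
    (B := B + B) (by linarith) (fun q M _ => by
      calc ∑ k ∈ Icc 1 M, ‖u T P f x ((q : ℤ) * (k : ℤ)) + u T P f x ((q : ℤ) * -(k : ℤ))‖
          ≤ ∑ _k ∈ Icc 1 M, (B + B) := Finset.sum_le_sum fun k _ =>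
            (norm_add_le _ _).trans (add_le_add (a1 _) (a1 _))
        _ = (B + B) * M := by
            rw [Finset.sum_const, Nat.card_Icc, Nat.add_sub_cancel, nsmul_eq_mul, mul_comm])
    (fun q _ => by
      obtain ⟨L, hL⟩ := a2 q
      refine ⟨L, hL.congr fun N => ?_⟩
      unfold avgC
      congr 1
      refine Finset.sum_congr rfl fun k _ => ?_
      beta_reduce
      rw [Complex.ofReal_one, one_mul])
  have h3 : CvC (avgC fun k : ℕ => (((g * one) k : ℝ) : ℂ) *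
      (u T P f x (k : ℤ) + u T P f x (-(k : ℤ)))) := by
    obtain ⟨L, hL⟩ := ht
    refine ⟨L, hL.congr fun N => ?_⟩
    unfold avgC
    congr 1
    refine Finset.sum_congr rfl fun n hn => ?_
    beta_reduce
    rw [Finset.mem_Icc] at hn
    rw [ArithmeticFunction.mul_apply]
    push_cast
    rw [Finset.sum_mul]
    refine Finset.sum_congr rfl fun y hy => ?_
    rw [pair_eq (u T P f x) hy]
    rw [Nat.mem_divisorsAntidiagonal] at hy
    have : y.2 ≠ 0 := by
      intro h0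
      rw [h0, mul_zero] at hy
      omega
    rw [one_apply this, Complex.ofReal_one, mul_one]
  exact back h3

theorem mean_le {g : ArithmeticFunction ℝ} (hg : Summ g) (M : ℕ) :
    ∑ m ∈ Icc 1 M, |(g * one) m| ≤ (∑' d : ℕ, |g d| / (d : ℝ)) * M := by
  have h1 : ∀ m ∈ Icc 1 M, |(g * one) m| ≤ ∑ x ∈ m.divisorsAntidiagonal, |g x.1| := by
    intro m _
    rw [ArithmeticFunction.mul_apply]
    refine (Finset.abs_sum_le_sum_abs _ _).trans (Finset.sum_le_sum fun x hx => ?_)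
    rw [abs_mul]
    rw [Nat.mem_divisorsAntidiagonal] at hx
    have : x.2 ≠ 0 := by
      intro h0
      rw [h0, mul_zero] at hx
      exact hx.2 hx.1.symm
    rw [one_apply this, abs_one, mul_one]
  refine (Finset.sum_le_sum h1).trans ?_
  rw [WM.sum_divisors_swap M (fun d _ => |g d|)]
  calc ∑ d ∈ Icc 1 M, ∑ _m ∈ Icc 1 (M / d), |g d|
      ≤ ∑ d ∈ Icc 1 M, (|g d| / (d : ℝ)) * M := by
        refine Finset.sum_le_sum fun d _ => ?_
        rw [Finset.sum_const, Nat.card_Icc, Nat.add_sub_cancel, nsmul_eq_mul]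
        calc ((M / d : ℕ) : ℝ) * |g d| ≤ ((M : ℝ) / d) * |g d| :=
              mul_le_mul_of_nonneg_right Nat.cast_div_le (abs_nonneg _)
          _ = _ := by ring
    _ = (∑ d ∈ Icc 1 M, |g d| / (d : ℝ)) * M := by rw [Finset.sum_mul]
    _ ≤ _ := mul_le_mul_of_nonneg_right
        (hg.sum_le_tsum _ fun d _ => by positivity) (Nat.cast_nonneg M)

theorem nil_bwd {g g' : ArithmeticFunction ℝ} (hgg : g * g' = 1) (hg : Summ g) (hg' : Summ g')
    (h : NilP (fun n => (g * one) n)) : NilP (fun _ => 1) := by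
  intro X _ μ _ d m T hs hT hN P hP f hf
  obtain ⟨B, hB⟩ := u_bdd (fun i => mem_mpGroup (hT i).measurable (hs i) (hT i)) P hf
  have h1 : ∀ᵐ x ∂μ, ∀ q : ℕ, CvC (avgC fun k : ℕ => (((g * one) k : ℝ) : ℂ) *
      (u T P f x ((q : ℤ) * (k : ℤ)) + u T P f x ((q : ℤ) * -(k : ℤ)))) := by
    rw [ae_all_iff]
    exact fun q => h.cv hs hT hN P hP hf q
  filter_upwards [hB, h1] with x a1 a2
  have hB0 : 0 ≤ B := (norm_nonneg _).trans (a1 0)
  have hG0 : 0 ≤ ∑' d : ℕ, |g d| / (d : ℝ) := tsum_nonneg fun d => by positivity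
  have ht := tannery (h := fun n => g' n) hg'
    (V := fun q k => (((g * one) k : ℝ) : ℂ) *
      (u T P f x ((q : ℤ) * (k : ℤ)) + u T P f x ((q : ℤ) * -(k : ℤ))))
    (B := (∑' d : ℕ, |g d| / (d : ℝ)) * (B + B)) (by positivity) (fun q M _ => by
      calc ∑ k ∈ Icc 1 M, ‖(((g * one) k : ℝ) : ℂ) *
            (u T P f x ((q : ℤ) * (k : ℤ)) + u T P f x ((q : ℤ) * -(k : ℤ)))‖
          ≤ ∑ k ∈ Icc 1 M, |(g * one) k| * (B + B) := Finset.sum_le_sum fun k _ => by
            rw [norm_mul, Complex.norm_real, Real.norm_eq_abs]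
            exact mul_le_mul_of_nonneg_left
              ((norm_add_le _ _).trans (add_le_add (a1 _) (a1 _))) (abs_nonneg _)
        _ = (∑ k ∈ Icc 1 M, |(g * one) k|) * (B + B) := by rw [Finset.sum_mul]
        _ ≤ ((∑' d : ℕ, |g d| / (d : ℝ)) * M) * (B + B) :=
            mul_le_mul_of_nonneg_right (mean_le hg M) (by linarith)
        _ = _ := by ring)
    (fun q _ => a2 q)
  have h3 : CvC (avgC fun k : ℕ => ((1 : ℝ) : ℂ) *
      (u T P f x (k : ℤ) + u T P f x (-(k : ℤ)))) := by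
    obtain ⟨L, hL⟩ := ht
    refine ⟨L, hL.congr fun N => ?_⟩
    unfold avgC
    congr 1
    refine Finset.sum_congr rfl fun n hn => ?_
    beta_reduce
    rw [Finset.mem_Icc] at hn
    have e1 : ∑ y ∈ n.divisorsAntidiagonal, ((g' y.1 : ℝ) : ℂ) * ((((g * one) y.2 : ℝ) : ℂ) *
        (u T P f x ((y.1 : ℤ) * (y.2 : ℤ)) + u T P f x ((y.1 : ℤ) * -(y.2 : ℤ)))) =
        (((g' * (g * one)) n : ℝ) : ℂ) * (u T P f x (n : ℤ) + u T P f x (-(n : ℤ))) := by
      rw [ArithmeticFunction.mul_apply]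
      push_cast
      rw [Finset.sum_mul]
      refine Finset.sum_congr rfl fun y hy => ?_
      rw [pair_eq (u T P f x) hy]
      ring
    have e2 : (g' * (g * one)) n = 1 := by
      rw [← mul_assoc, mul_comm g' g, hgg, one_mul, one_apply (by omega)]
    rw [e1, e2]
  exact back (w := fun _ => 1) h3

/-- integers without prime factors in `P` -/
theorem cop_eq (P : Set ℕ) (hP : ∀ p ∈ P, p.Prime) :
    (WM.ind P).pmul WM.mu * one = WM.cop P := by
  have h1 : WM.ind P * WM.cop P = one := WM.ind_mul_cop P hP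
  rw [← h1, ← mul_assoc, mul_comm ((WM.ind P).pmul WM.mu), WM.ind_mul_pmul, one_mul]

theorem summ_pmul {P : Set ℕ} (h : Summ (WM.ind P)) : Summ ((WM.ind P).pmul WM.mu) := by
  refine Summable.of_nonneg_of_le (fun d => by positivity) (fun d => ?_) h
  apply div_le_div_of_nonneg_right _ (Nat.cast_nonneg d)
  rw [ArithmeticFunction.pmul_apply, abs_mul]
  exact mul_le_of_le_one_right (abs_nonneg _) (WM.abs_mu_le d)

end Pool.Agent.X159.PE.Conv
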