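import Mathlib

/-!
# Suspensions of finite height

For a measure preserving map `R` of a probability space and `q ≥ 1`, the map
`T (i, x) = (i + 1 mod q, x)`, with `x` replaced by `R x` when `i + 1 = q`, preserves the product of
the uniform measure of `Fin q` and `μ`, and `T ^ n (0, x) = (n mod q, R ^ (n / q) x)`.
-/

set_option autoImplicit false

namespace Pool.Agent.X159.PE

open MeasureTheory Filter Topology
open scoped ENNReal

/-- the uniform probability measure on `Fin q` -/
noncomputable def unif (q : ℕ) : Measure (Fin q) := (q : ℝ≥0∞)⁻¹ • Measure.count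

theorem unif_prob {q : ℕ} (hq : 0 < q) : IsProbabilityMeasure (unif q) := by
  constructor
  unfold unif
  rw [Measure.smul_apply, Measure.count_univ]
  simp only [ENat.card_eq_coe_fintype_card, Fintype.card_fin, smul_eq_mul]
  exact ENNReal.inv_mul_cancel (by exact_mod_cast hq.ne') (ENNReal.natCast_ne_top q)

theorem unif_pos {q : ℕ} (i : Fin q) : unif q {i} ≠ 0 := by
  unfold unif
  rw [Measure.smul_apply, Measure.count_singleton]
  simp

/-- the cyclic shift of `Fin q` -/
def nxt {q : ℕ} (hq : 0 < q) (i : Fin q) : Fin q := ⟨(i.1 + 1) % q, Nat.mod_lt _ hq⟩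

theorem nxt_inj {q : ℕ} (hq : 0 < q) : Function.Injective (nxt hq) := by
  intro i j h
  have h1 : (i.1 + 1) % q = (j.1 + 1) % q := congrArg Fin.val h
  have h2 : i.1 ≡ j.1 [MOD q] := Nat.ModEq.add_right_cancel' 1 h1
  have h3 : i.1 % q = j.1 % q := h2
  rw [Nat.mod_eq_of_lt i.2, Nat.mod_eq_of_lt j.2] at h3
  exact Fin.ext h3

theorem nxt_mp {q : ℕ} (hq : 0 < q) : MeasurePreserving (nxt hq) (unif q) (unif q) := by
  have hm : Measurable (nxt hq) := measurable_of_countable _
  have hs' : Function.Surjective (nxt hq) := Finite.surjective_of_injective (nxt_inj hq)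
  refine ⟨hm, ?_⟩
  ext s hs
  rw [Measure.map_apply hm hs]
  unfold unif
  rw [Measure.smul_apply, Measure.smul_apply, Measure.count_apply (hm hs), Measure.count_apply hs,
    Set.encard_preimage_of_injective_subset_range (nxt_inj hq)]
  rw [hs'.range_eq]
  exact Set.subset_univ _

variable {X : Type} [MeasurableSpace X]

/-- the suspension of height `q` -/
def susp {q : ℕ} (hq : 0 < q) (R : X → X) (p : Fin q × X) : Fin q × X :=
  (nxt hq p.1, if (nxt hq p.1).1 = 0 then R p.2 else p.2)

theorem susp_mp {q : ℕ} (hq : 0 < q) {R : X → X} {μ : Measure X} [IsProbabilityMeasure μ]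
    (hR : MeasurePreserving R μ μ) :
    MeasurePreserving (susp hq R) ((unif q).prod μ) ((unif q).prod μ) := by
  haveI := unif_prob hq
  refine (nxt_mp hq).skew_product (g := fun i x => if (nxt hq i).1 = 0 then R x else x) ?_ ?_
  · refine Measurable.ite ?_ (hR.measurable.comp measurable_snd) measurable_snd
    exact measurable_fst (MeasurableSet.of_discrete (s := {i : Fin q | (nxt hq i).1 = 0}))
  · refine ae_of_all _ fun i => ?_
    by_cases h : (nxt hq i).1 = 0
    · simp only [h, if_true]
      exact hR.map_eq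
    · simp only [h, if_false]
      exact Measure.map_id

theorem susp_iter {q : ℕ} (hq : 0 < q) (R : X → X) (n : ℕ) (x : X) :
    (susp hq R)^[n] (⟨0, hq⟩, x) = (⟨n % q, Nat.mod_lt _ hq⟩, R^[n / q] x) := by
  induction n with
  | zero => simp
  | succ n ih =>
    rw [Function.iterate_succ_apply', ih]
    have h1 : (n % q + 1) % q = (n + 1) % q := Nat.mod_add_mod n q 1
    refine Prod.ext (Fin.ext h1) ?_
    show (if (n % q + 1) % q = 0 then R (R^[n / q] x) else R^[n / q] x) = R^[(n + 1) / q] x
    rw [h1, Nat.succ_div]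
    by_cases h : q ∣ n + 1
    · rw [if_pos (Nat.mod_eq_zero_of_dvd h), if_pos h, Function.iterate_succ_apply']
    · rw [if_neg (fun hh => h (Nat.dvd_of_mod_eq_zero hh)), if_neg h, add_zero]

/-- a property which holds almost everywhere on the suspension holds almost everywhere on the
floor `0` -/
theorem floor_ae {q : ℕ} (hq : 0 < q) {μ : Measure X} [IsProbabilityMeasure μ]
    {P : Fin q × X → Prop} (h : ∀ᵐ z ∂((unif q).prod μ), P z) : ∀ᵐ x ∂μ, P (⟨0, hq⟩, x) := by
  haveI := unif_prob hq
  have h1 := Measure.ae_ae_of_ae_prod h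
  by_contra hn
  have h2 := ae_iff.1 h1
  refine unif_pos (⟨0, hq⟩ : Fin q) (measure_mono_null ?_ h2)
  intro i hi
  rw [Set.mem_singleton_iff] at hi
  rw [hi]
  exact hn

end Pool.Agent.X159.PE
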